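import Pool.Agent.N36.LC.Stm

/-! The computation modulo `[A, J]` for a quotient ring with central commutators. -/

set_option autoImplicit false

namespace N36.LC

/-- abelianisation -/
noncomputable def ab (I : Type) : FreeAlgebra ℤ I →ₐ[ℤ] MvPolynomial I ℤ :=
  FreeAlgebra.lift ℤ MvPolynomial.X

theorem ab_ι {I : Type} (i : I) : ab I (FreeAlgebra.ι ℤ i) = MvPolynomial.X i := by
  rw [ab, FreeAlgebra.lift_ι_apply]

theorem ab_surj (I : Type) : Function.Surjective (ab I) := by
  intro f
  induction f using MvPolynomial.induction_on with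
  | C a => exact ⟨algebraMap ℤ _ a, by rw [AlgHom.commutes]; rfl⟩
  | add f g hf hg =>
    obtain ⟨u, rfl⟩ := hf
    obtain ⟨v, rfl⟩ := hg
    exact ⟨u + v, map_add _ _ _⟩
  | mul_X f i hf =>
    obtain ⟨u, rfl⟩ := hf
    exact ⟨u * FreeAlgebra.ι ℤ i, by rw [map_mul, ab_ι]⟩

/-- a lift of a polynomial -/
noncomputable def sg {I : Type} (f : MvPolynomial I ℤ) : FreeAlgebra ℤ I :=
  Function.surjInv (ab_surj I) f

theorem ab_sg {I : Type} (f : MvPolynomial I ℤ) : ab I (sg f) = f :=
  Function.surjInv_eq (ab_surj I) f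

structure Dat (I R P : Type) [Ring R] [AddCommGroup P] where
  π : FreeAlgebra ℤ I →ₐ[ℤ] R
  surj : Function.Surjective π
  cent : ∀ a b c : R, (a * b - b * a) * c = c * (a * b - b * a)
  sq : ∀ a b c : R, (a * b - b * a) * (a * c - c * a) = 0
  F : R →+ FreeAlgebra ℤ I →+ P
  hF : ∀ r u v, F r (u * v) = F (r * π u) v + F (π v * r) u
  F1 : ∀ u, F 1 u = 0

namespace Dat

variable {I R P : Type} [Ring R] [AddCommGroup P] (D : Dat I R P)

/-- `q` is killed by commutators -/
def Kill (_ : Dat I R P) (q : R) : Prop := ∀ r s : R, (r * s - s * r) * q = 0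

/-- `q` is central -/
def Cen (_ : Dat I R P) (q : R) : Prop := ∀ r : R, q * r = r * q

/-- `f • q` -/
noncomputable def act (q : R) (f : MvPolynomial I ℤ) : R := D.π (sg f) * q

theorem kill_comm {q : R} (hq : D.Kill q) (r s : R) : r * s * q = s * r * q := by
  have := hq r s
  rw [sub_mul, sub_eq_zero] at this
  exact this

/-- the annihilator of `q` -/
def ann {q : R} (hq : D.Kill q) : TwoSidedIdeal R :=
  TwoSidedIdeal.mk' {r | r * q = 0} (zero_mul q)
    (fun {a b} (ha : a * q = 0) (hb : b * q = 0) => by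
      show (a + b) * q = 0
      rw [add_mul, ha, hb, add_zero])
    (fun {a} (ha : a * q = 0) => by
      show -a * q = 0
      rw [neg_mul, ha, neg_zero])
    (fun {a b} (hb : b * q = 0) => by
      show a * b * q = 0
      rw [mul_assoc, hb, mul_zero])
    (fun {a b} (ha : a * q = 0) => by
      show a * b * q = 0
      rw [D.kill_comm hq, mul_assoc, ha, mul_zero])

theorem mem_ann {q : R} (hq : D.Kill q) (r : R) : r ∈ D.ann hq ↔ r * q = 0 := by
  rw [ann, TwoSidedIdeal.mem_mk']
  rfl

theorem act_ab_aux {q : R} (hq : D.Kill q) (h : FreeAlgebra ℤ I) (h0 : ab I h = 0) :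
    D.π h * q = 0 := by
  let c := (D.ann hq).ringCon
  let iC : CommRing c.Quotient :=
    { (inferInstance : Ring c.Quotient) with
      mul_comm := by
        intro a b
        obtain ⟨a, rfl⟩ := c.mk'_surjective a
        obtain ⟨b, rfl⟩ := c.mk'_surjective b
        rw [← map_mul, ← map_mul]
        refine Quotient.sound' ?_
        show (D.ann hq).ringCon _ _
        rw [TwoSidedIdeal.rel_iff, mem_ann]
        exact hq a b }
  let g : MvPolynomial I ℤ →+* c.Quotient :=
    MvPolynomial.eval₂Hom (Int.castRingHom _) fun i => c.mk' (D.π (FreeAlgebra.ι ℤ i))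
  have key : ∀ h : FreeAlgebra ℤ I, g (ab I h) = c.mk' (D.π h) := by
    intro h
    induction h using FreeAlgebra.induction with
    | grade0 r =>
      rw [AlgHom.commutes, AlgHom.commutes, eq_intCast (algebraMap ℤ R) r,
        eq_intCast (algebraMap ℤ (MvPolynomial I ℤ)) r, map_intCast, map_intCast]
    | grade1 i => rw [ab_ι, MvPolynomial.eval₂Hom_X']
    | mul a b ha hb => rw [map_mul, map_mul, map_mul, map_mul, ha, hb]
    | add a b ha hb => rw [map_add, map_add, map_add, map_add, ha, hb]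
  have h1 : c.mk' (D.π h) = c.mk' 0 := by
    rw [← key, h0, map_zero, map_zero]
  have h2 : c (D.π h) 0 := Quotient.eq''.1 h1
  rw [TwoSidedIdeal.rel_iff, sub_zero, mem_ann] at h2
  exact h2

theorem act_ab {q : R} (hq : D.Kill q) (h : FreeAlgebra ℤ I) : D.act q (ab I h) = D.π h * q := by
  rw [act]
  have h1 := D.act_ab_aux hq (sg (ab I h) - h) (by rw [map_sub, ab_sg, sub_self])
  rw [map_sub, sub_mul, sub_eq_zero] at h1
  exact h1

theorem act_add {q : R} (hq : D.Kill q) (f g : MvPolynomial I ℤ) :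
    D.act q (f + g) = D.act q f + D.act q g := by
  obtain ⟨f, rfl⟩ := ab_surj I f
  obtain ⟨g, rfl⟩ := ab_surj I g
  rw [← map_add, D.act_ab hq, D.act_ab hq, D.act_ab hq, map_add, add_mul]

theorem act_mul {q : R} (hq : D.Kill q) (f : FreeAlgebra ℤ I) (g : MvPolynomial I ℤ) :
    D.π f * D.act q g = D.act q (ab I f * g) := by
  obtain ⟨g, rfl⟩ := ab_surj I g
  rw [← map_mul, D.act_ab hq, D.act_ab hq, map_mul, mul_assoc]

theorem act_mul_right {q : R} (hq : D.Kill q) (hc : D.Cen q) (f : FreeAlgebra ℤ I)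
    (g : MvPolynomial I ℤ) : D.act q g * D.π f = D.act q (g * ab I f) := by
  obtain ⟨g, rfl⟩ := ab_surj I g
  rw [← map_mul, D.act_ab hq, D.act_ab hq, map_mul, mul_assoc, hc, mul_assoc]

/-- the additive map `f ↦ f • q` -/
noncomputable def actH {q : R} (hq : D.Kill q) : MvPolynomial I ℤ →+ R :=
  AddMonoidHom.mk' (D.act q) (D.act_add hq)

theorem actH_apply {q : R} (hq : D.Kill q) (f : MvPolynomial I ℤ) : D.actH hq f = D.act q f := rfl

theorem act_zsmul {q : R} (hq : D.Kill q) (n : ℤ) (f : MvPolynomial I ℤ) :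
    D.act q (n • f) = n • D.act q f := map_zsmul (D.actH hq) n f

theorem act_zero {q : R} (hq : D.Kill q) : D.act q 0 = 0 := map_zero (D.actH hq)

theorem act_zero_left (f : MvPolynomial I ℤ) : D.act 0 f = 0 := by rw [act, mul_zero]

theorem act_neg_left (q : R) (f : MvPolynomial I ℤ) : D.act (-q) f = - D.act q f := by
  rw [act, act, mul_neg]

theorem act_one {q : R} (hq : D.Kill q) : D.act q 1 = q := by
  have := D.act_ab hq 1
  rwa [map_one, map_one, one_mul] at this

theorem F_one (r : R) : D.F r 1 = 0 := by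
  have := D.hF r 1 1
  rw [map_one D.π, mul_one, one_mul, mul_one] at this
  exact add_eq_left.1 this.symm

theorem F_alg (r : R) (n : ℤ) : D.F r (algebraMap ℤ _ n) = 0 := by
  rw [eq_intCast (algebraMap ℤ (FreeAlgebra ℤ I)) n, ← zsmul_one, map_zsmul, F_one, smul_zero]

variable [Fintype I]

/-- the chain rule for the pairing -/
theorem chain {q : R} (hq : D.Kill q) (hc : D.Cen q) (f : MvPolynomial I ℤ) (g : FreeAlgebra ℤ I) :
    D.F (D.act q f) g =
      ∑ k, D.F (D.act q (f * MvPolynomial.pderiv k (ab I g))) (FreeAlgebra.ι ℤ k) := by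
  induction g using FreeAlgebra.induction generalizing f with
  | grade0 n =>
    rw [F_alg]
    symm
    apply Finset.sum_eq_zero
    intro k _
    have : ab I (algebraMap ℤ _ n) = MvPolynomial.C n := by rw [AlgHom.commutes]; rfl
    rw [this, MvPolynomial.pderiv_C, mul_zero, D.act_zero hq, map_zero, AddMonoidHom.zero_apply]
  | grade1 l =>
    rw [Finset.sum_eq_single l]
    · rw [ab_ι, MvPolynomial.pderiv_X_self, mul_one]
    · intro k _ hk
      rw [ab_ι, MvPolynomial.pderiv_X_of_ne (Ne.symm hk), mul_zero, D.act_zero hq, map_zero,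
        AddMonoidHom.zero_apply]
    · intro h
      exact absurd (Finset.mem_univ l) h
  | mul u v hu hv =>
    rw [D.hF, D.act_mul_right hq hc, D.act_mul hq, hu, hv, ← Finset.sum_add_distrib]
    apply Finset.sum_congr rfl
    intro k _
    rw [map_mul, Derivation.leibniz, smul_eq_mul, smul_eq_mul, mul_add, D.act_add hq, map_add,
      AddMonoidHom.add_apply]
    congr 4 <;> ring
  | add u v hu hv =>
    rw [map_add, hu, hv, ← Finset.sum_add_distrib]
    apply Finset.sum_congr rfl
    intro k _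
    rw [map_add, map_add, mul_add, D.act_add hq, map_add, AddMonoidHom.add_apply]

/-- commutator of a lift with `z`, times a central element -/
theorem bracket (z : I) (κ : R)
    (hq : ∀ k, D.Kill ((D.π (FreeAlgebra.ι ℤ k) * D.π (FreeAlgebra.ι ℤ z) -
      D.π (FreeAlgebra.ι ℤ z) * D.π (FreeAlgebra.ι ℤ k)) * κ)) (f : FreeAlgebra ℤ I) :
    (D.π f * D.π (FreeAlgebra.ι ℤ z) - D.π (FreeAlgebra.ι ℤ z) * D.π f) * κ =
      ∑ k, D.act ((D.π (FreeAlgebra.ι ℤ k) * D.π (FreeAlgebra.ι ℤ z) -
        D.π (FreeAlgebra.ι ℤ z) * D.π (FreeAlgebra.ι ℤ k)) * κ)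
          (MvPolynomial.pderiv k (ab I f)) := by
  induction f using FreeAlgebra.induction with
  | grade0 n =>
    have h1 : D.π (algebraMap ℤ _ n) = algebraMap ℤ R n := AlgHom.commutes _ _
    rw [h1, Algebra.commutes, sub_self, zero_mul]
    symm
    apply Finset.sum_eq_zero
    intro k _
    have : ab I (algebraMap ℤ _ n) = MvPolynomial.C n := by rw [AlgHom.commutes]; rfl
    rw [this, MvPolynomial.pderiv_C, D.act_zero (hq k)]
  | grade1 l =>
    rw [Finset.sum_eq_single l]
    · rw [ab_ι, MvPolynomial.pderiv_X_self, D.act_one (hq l)]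
    · intro k _ hk
      rw [ab_ι, MvPolynomial.pderiv_X_of_ne (Ne.symm hk), D.act_zero (hq k)]
    · intro h
      exact absurd (Finset.mem_univ l) h
  | mul u v hu hv =>
    have h1 : (D.π (u * v) * D.π (FreeAlgebra.ι ℤ z) - D.π (FreeAlgebra.ι ℤ z) * D.π (u * v)) * κ
        = D.π u * ((D.π v * D.π (FreeAlgebra.ι ℤ z) - D.π (FreeAlgebra.ι ℤ z) * D.π v) * κ) +
          D.π v * ((D.π u * D.π (FreeAlgebra.ι ℤ z) - D.π (FreeAlgebra.ι ℤ z) * D.π u) * κ) := by
      have h2 := D.cent (D.π u) (D.π (FreeAlgebra.ι ℤ z)) (D.π v)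
      rw [← mul_assoc (D.π v), ← h2, map_mul]
      noncomm_ring
    rw [h1, hu, hv, Finset.mul_sum, Finset.mul_sum, ← Finset.sum_add_distrib]
    apply Finset.sum_congr rfl
    intro k _
    rw [D.act_mul (hq k), D.act_mul (hq k), ← D.act_add (hq k), map_mul, Derivation.leibniz,
      smul_eq_mul, smul_eq_mul]
  | add u v hu hv =>
    have h1 : (D.π (u + v) * D.π (FreeAlgebra.ι ℤ z) - D.π (FreeAlgebra.ι ℤ z) * D.π (u + v)) * κ
        = (D.π u * D.π (FreeAlgebra.ι ℤ z) - D.π (FreeAlgebra.ι ℤ z) * D.π u) * κ +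
          (D.π v * D.π (FreeAlgebra.ι ℤ z) - D.π (FreeAlgebra.ι ℤ z) * D.π v) * κ := by
      rw [map_add]
      noncomm_ring
    rw [h1, hu, hv, ← Finset.sum_add_distrib]
    apply Finset.sum_congr rfl
    intro k _
    rw [← D.act_add (hq k), map_add, map_add]

end Dat

end N36.LC
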