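import Pool.Agent.N36.LC.Alg

/-! Pairs of variables and the relation obtained from the Jacobi identity. -/

set_option autoImplicit false

namespace N36.LC

/-- commutator -/
def br {R : Type} [Ring R] (r s : R) : R := r * s - s * r

theorem br_self {R : Type} [Ring R] (r : R) : br r r = 0 := sub_self _

theorem br_swap {R : Type} [Ring R] (r s : R) : br r s = - br s r := by
  rw [br, br, neg_sub]

namespace Dat

variable {I R P : Type} [Ring R] [AddCommGroup P] (D : Dat I R P)

/-- the generators -/
noncomputable def gn (k : I) : R := D.π (FreeAlgebra.ι ℤ k)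

theorem br_cen (r s : R) : D.Cen (br r s) := fun t => D.cent r s t

theorem Cen.mul {r s : R} (hr : D.Cen r) (hs : D.Cen s) : D.Cen (r * s) := by
  intro t
  rw [mul_assoc, hs, ← mul_assoc, hr, mul_assoc]

include D in
theorem sq1 (r s t : R) : br r s * br r t = 0 := D.sq r s t
include D in
theorem sq2 (r s t : R) : br s r * br r t = 0 := by rw [br_swap s r, neg_mul, D.sq1, neg_zero]
include D in
theorem sq3 (r s t : R) : br r s * br t r = 0 := by rw [br_swap t r, mul_neg, D.sq1, neg_zero]
include D in
theorem sq4 (r s t : R) : br s r * br t r = 0 := by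
  rw [br_swap s r, br_swap t r, neg_mul_neg, D.sq1]

theorem kill_of_gen {q : R} (h : ∀ k l : I, br (D.gn k) (D.gn l) * q = 0) : D.Kill q := by
  intro r s
  obtain ⟨r, rfl⟩ := D.surj r
  obtain ⟨s, rfl⟩ := D.surj s
  induction r using FreeAlgebra.induction with
  | grade0 n =>
    rw [AlgHom.commutes, Algebra.commutes, sub_self, zero_mul]
  | grade1 k =>
    induction s using FreeAlgebra.induction with
    | grade0 n => rw [AlgHom.commutes, Algebra.commutes, sub_self, zero_mul]
    | grade1 l => exact h k l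
    | mul a b ha hb =>
      have h2 := D.cent (D.π (FreeAlgebra.ι ℤ k)) (D.π a) (D.π b)
      have : (D.π (FreeAlgebra.ι ℤ k) * D.π (a * b) - D.π (a * b) * D.π (FreeAlgebra.ι ℤ k)) * q
          = D.π a * ((D.π (FreeAlgebra.ι ℤ k) * D.π b - D.π b * D.π (FreeAlgebra.ι ℤ k)) * q) +
            D.π b * ((D.π (FreeAlgebra.ι ℤ k) * D.π a - D.π a * D.π (FreeAlgebra.ι ℤ k)) * q) := by
        rw [← mul_assoc (D.π b), ← h2, map_mul]
        noncomm_ring
      rw [this, ha, hb, mul_zero, mul_zero, add_zero]
    | add a b ha hb =>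
      have : (D.π (FreeAlgebra.ι ℤ k) * D.π (a + b) - D.π (a + b) * D.π (FreeAlgebra.ι ℤ k)) * q
          = ((D.π (FreeAlgebra.ι ℤ k) * D.π b - D.π b * D.π (FreeAlgebra.ι ℤ k)) * q) +
            ((D.π (FreeAlgebra.ι ℤ k) * D.π a - D.π a * D.π (FreeAlgebra.ι ℤ k)) * q) := by
        rw [map_add]
        noncomm_ring
      rw [this, ha, hb, add_zero]
  | mul a b ha hb =>
    have h2 := D.cent (D.π a) (D.π s) (D.π b)
    have : (D.π (a * b) * D.π s - D.π s * D.π (a * b)) * q
        = D.π a * ((D.π b * D.π s - D.π s * D.π b) * q) +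
          D.π b * ((D.π a * D.π s - D.π s * D.π a) * q) := by
      rw [← mul_assoc (D.π b), ← h2, map_mul]
      noncomm_ring
    rw [this, ha, hb, mul_zero, mul_zero, add_zero]
  | add a b ha hb =>
    have : (D.π (a + b) * D.π s - D.π s * D.π (a + b)) * q
        = ((D.π a * D.π s - D.π s * D.π a) * q) + ((D.π b * D.π s - D.π s * D.π b) * q) := by
      rw [map_add]
      noncomm_ring
    rw [this, ha, hb, add_zero]

theorem kill_zero : D.Kill 0 := fun _ _ => mul_zero _

theorem Kill.neg {q : R} (hq : D.Kill q) : D.Kill (-q) := fun r s => by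
  rw [mul_neg, hq, neg_zero]

section pairs

variable {m : ℕ} (v : Option (Fin m × Bool) ≃ I)

/-- the commutator of the pair `j`, in the centre -/
noncomputable def cc (j : Fin m) : Subring.center R :=
  ⟨br (D.gn (v (some (j, false)))) (D.gn (v (some (j, true)))), by
    rw [Subring.mem_center_iff]
    exact fun g => (D.br_cen _ _ g).symm⟩

/-- the product of the commutators of the pairs in `S` -/
noncomputable def K (S : Finset (Fin m)) : R := ((∏ l ∈ S, D.cc v l : Subring.center R) : R)

theorem K_cen (S : Finset (Fin m)) : D.Cen (D.K v S) := fun r =>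
  ((Subring.mem_center_iff.1 (∏ l ∈ S, D.cc v l : Subring.center R).2) r).symm

theorem K_empty : D.K v ∅ = 1 := by
  rw [K, Finset.prod_empty]
  rfl

theorem K_insert {S : Finset (Fin m)} {l : Fin m} (hl : l ∉ S) : D.K v (insert l S) =
    br (D.gn (v (some (l, false)))) (D.gn (v (some (l, true)))) * D.K v S := by
  rw [K, Finset.prod_insert hl]
  rfl

theorem K_erase {S : Finset (Fin m)} {l : Fin m} (hl : l ∈ S) : D.K v S =
    br (D.gn (v (some (l, false)))) (D.gn (v (some (l, true)))) * D.K v (S.erase l) := by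
  rw [← K_insert D v (Finset.notMem_erase l S), Finset.insert_erase hl]

theorem K_kill {S : Finset (Fin m)} {l : Fin m} (hl : l ∈ S) (c : Bool) (r : R) :
    br (D.gn (v (some (l, c)))) r * D.K v S = 0 := by
  rw [D.K_erase v hl, ← mul_assoc]
  cases c
  · rw [D.sq1, zero_mul]
  · rw [D.sq3, zero_mul]

theorem K_kill' {S : Finset (Fin m)} {l : Fin m} (hl : l ∈ S) (c : Bool) (r : R) :
    br r (D.gn (v (some (l, c)))) * D.K v S = 0 := by
  rw [br_swap, neg_mul, D.K_kill v hl, neg_zero]

theorem kill_K : D.Kill (D.K v Finset.univ) := by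
  apply D.kill_of_gen
  intro k l
  obtain ⟨k, rfl⟩ := v.surjective k
  obtain ⟨l, rfl⟩ := v.surjective l
  rcases k with _ | ⟨k, c⟩
  · rcases l with _ | ⟨l, d⟩
    · rw [br_self, zero_mul]
    · exact D.K_kill' v (Finset.mem_univ l) d _
  · exact D.K_kill v (Finset.mem_univ k) c _

/-- the three variables `x, a_j, b_j` -/
def tr (j : Fin m) : Option Bool → Option (Fin m × Bool)
  | none => none
  | some c => some (j, c)

theorem tr_zero (j : Fin m) (a b c d : Option Bool) :
    br (D.gn (v (tr j a))) (D.gn (v (tr j b))) * br (D.gn (v (tr j c))) (D.gn (v (tr j d))) = 0 := by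
  rcases a with _ | _ | _ <;> rcases b with _ | _ | _ <;> rcases c with _ | _ | _ <;>
    rcases d with _ | _ | _ <;>
    first
      | rw [br_self, zero_mul]
      | rw [br_self (D.gn (v (tr j none))), mul_zero]
      | rw [br_self (D.gn (v (tr j (some false)))), mul_zero]
      | rw [br_self (D.gn (v (tr j (some true)))), mul_zero]
      | exact D.sq1 _ _ _
      | exact D.sq2 _ _ _
      | exact D.sq3 _ _ _
      | exact D.sq4 _ _ _

/-- the central elements `[X k, X z] K (univ.erase j)` -/
noncomputable def Q (j : Fin m) (k z : I) : R := br (D.gn k) (D.gn z) * D.K v (Finset.univ.erase j)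

theorem Q_cen (j : Fin m) (k z : I) : D.Cen (D.Q v j k z) :=
  Cen.mul D (D.br_cen _ _) (D.K_cen v _)

theorem Q_out (j l : Fin m) (h : l ≠ j) (c : Bool) (z : I) :
    D.Q v j (v (some (l, c))) z = 0 :=
  D.K_kill v (Finset.mem_erase.2 ⟨h, Finset.mem_univ l⟩) c _

theorem Q_kill (j : Fin m) (k : I) (z : Option Bool) : D.Kill (D.Q v j k (v (tr j z))) := by
  obtain ⟨k, rfl⟩ := v.surjective k
  have main : ∀ y : Option Bool, D.Kill (D.Q v j (v (tr j y)) (v (tr j z))) := by
    intro y
    apply D.kill_of_gen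
    intro i i'
    have e : ∀ r : R, D.Cen r → r * D.Q v j (v (tr j y)) (v (tr j z)) =
        br (D.gn (v (tr j y))) (D.gn (v (tr j z))) * (r * D.K v (Finset.univ.erase j)) := by
      intro r hr
      rw [Q, ← mul_assoc, ← mul_assoc, hr]
    rw [e _ (D.br_cen _ _)]
    obtain ⟨i, rfl⟩ := v.surjective i
    obtain ⟨i', rfl⟩ := v.surjective i'
    have h1 : ∀ (l : Fin m) (c : Bool), (∃ b, some (l, c) = tr j b) ∨ l ≠ j := by
      intro l c
      by_cases h : l = j
      · left
        exact ⟨some c, by rw [tr, h]⟩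
      · exact Or.inr h
    have h2 : ∀ i : Option (Fin m × Bool), (∃ b, i = tr j b) ∨
        ∃ (l : Fin m) (c : Bool), l ≠ j ∧ i = some (l, c) := by
      intro i
      rcases i with _ | ⟨l, c⟩
      · exact Or.inl ⟨none, rfl⟩
      · rcases h1 l c with h | h
        · exact Or.inl h
        · exact Or.inr ⟨l, c, h, rfl⟩
    rcases h2 i with ⟨b, rfl⟩ | ⟨l, c, hl, rfl⟩
    · rcases h2 i' with ⟨b', rfl⟩ | ⟨l, c, hl, rfl⟩
      · rw [← mul_assoc, D.tr_zero, zero_mul]
      · rw [D.K_kill' v (Finset.mem_erase.2 ⟨hl, Finset.mem_univ l⟩), mul_zero]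
    · rw [D.K_kill v (Finset.mem_erase.2 ⟨hl, Finset.mem_univ l⟩), mul_zero]
  rcases k with _ | ⟨l, c⟩
  · exact main none
  · by_cases h : l = j
    · subst h
      exact main (some c)
    · rw [D.Q_out v j l h]
      exact D.kill_zero

theorem Q_K (j : Fin m) : D.Q v j (v (some (j, false))) (v (some (j, true))) =
    D.K v Finset.univ := (D.K_erase v (Finset.mem_univ j)).symm

theorem Q_K' (j : Fin m) : D.Q v j (v (some (j, true))) (v (some (j, false))) =
    - D.K v Finset.univ := by
  rw [← D.Q_K v j, Q, Q, br_swap, neg_mul]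

/-- the commutator in the free ring -/
noncomputable def ct (j : Fin m) : FreeAlgebra ℤ I :=
  br (FreeAlgebra.ι ℤ (v (some (j, false)))) (FreeAlgebra.ι ℤ (v (some (j, true))))

theorem π_br (f g : FreeAlgebra ℤ I) : D.π (br f g) = br (D.π f) (D.π g) := by
  rw [br, br, map_sub, map_mul, map_mul]

theorem π_ct (j : Fin m) : D.π (ct v j) =
    br (D.gn (v (some (j, false)))) (D.gn (v (some (j, true)))) := by
  rw [ct, D.π_br]
  rfl

/-- telescoping -/
theorem tel (S : Finset (Fin m)) (y : FreeAlgebra ℤ I) :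
    ∑ j ∈ S, D.F (D.π y * D.K v (S.erase j)) (ct v j) + D.F (D.K v S) y = 0 := by
  classical
  induction S using Finset.induction_on generalizing y with
  | empty => rw [Finset.sum_empty, zero_add, D.K_empty, D.F1]
  | insert j S hj ih =>
    have h1 := ih (y * ct v j)
    rw [D.hF, D.π_ct, D.K_cen v S] at h1
    rw [Finset.sum_insert hj, Finset.erase_insert hj, D.K_insert v hj]
    have h2 : ∑ l ∈ S, D.F (D.π y * D.K v ((insert j S).erase l)) (ct v l) =
        ∑ l ∈ S, D.F (D.π (y * ct v j) * D.K v (S.erase l)) (ct v l) := by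
      apply Finset.sum_congr rfl
      intro l hl
      have hlj : l ≠ j := fun h => hj (h ▸ hl)
      rw [Finset.erase_insert_of_ne hlj.symm, D.K_insert v (fun h => hj (Finset.mem_of_mem_erase h)),
        map_mul D.π, D.π_ct, mul_assoc]
    rw [h2, ← h1]
    abel

theorem F_ct (j : Fin m) (s : R) : D.F s (ct v j) =
    D.F (br s (D.gn (v (some (j, false))))) (FreeAlgebra.ι ℤ (v (some (j, true)))) -
      D.F (br s (D.gn (v (some (j, true))))) (FreeAlgebra.ι ℤ (v (some (j, false)))) := by
  rw [ct, br, map_sub, D.hF, D.hF, br, br, map_sub, map_sub, AddMonoidHom.sub_apply,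
    AddMonoidHom.sub_apply]
  show _ = (D.F (s * D.π _) _ - D.F (D.π _ * s) _) - (D.F (s * D.π _) _ - D.F (D.π _ * s) _)
  abel

variable [Fintype I]

/-- the functional `T_new` -/
noncomputable def Tn (f : MvPolynomial I ℤ) : P :=
  D.F (D.act (D.K v Finset.univ) f) (FreeAlgebra.ι ℤ (v none)) +
    ∑ j, (D.F (D.act (D.Q v j (v none) (v (some (j, false)))) f)
        (FreeAlgebra.ι ℤ (v (some (j, true)))) -
      D.F (D.act (D.Q v j (v none) (v (some (j, true)))) f)
        (FreeAlgebra.ι ℤ (v (some (j, false)))))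

/-- the sum over all variables -/
theorem sum_vars {M : Type} [AddCommMonoid M] (g : I → M) :
    ∑ k, g k = g (v none) + ∑ j, (g (v (some (j, false))) + g (v (some (j, true)))) := by
  rw [← Equiv.sum_comp v, Fintype.sum_option, Fintype.sum_prod_type]
  congr 1
  apply Finset.sum_congr rfl
  intro j _
  rw [Fintype.sum_bool, add_comm]

theorem br_act (j : Fin m) (z : Option Bool) (f : FreeAlgebra ℤ I) :
    br (D.π f) (D.gn (v (tr j z))) * D.K v (Finset.univ.erase j) =
      D.act (D.Q v j (v none) (v (tr j z))) (MvPolynomial.pderiv (v none) (ab I f)) +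
      (D.act (D.Q v j (v (some (j, false))) (v (tr j z)))
        (MvPolynomial.pderiv (v (some (j, false))) (ab I f)) +
      D.act (D.Q v j (v (some (j, true))) (v (tr j z)))
        (MvPolynomial.pderiv (v (some (j, true))) (ab I f))) := by
  have h := D.bracket (v (tr j z)) (D.K v (Finset.univ.erase j)) (fun k => D.Q_kill v j k z) f
  have h' : br (D.π f) (D.gn (v (tr j z))) * D.K v (Finset.univ.erase j) =
    ∑ k, D.act (D.Q v j k (v (tr j z))) (MvPolynomial.pderiv k (ab I f)) := h
  rw [h', sum_vars v]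
  congr 1
  rw [Finset.sum_eq_single j]
  · intro l _ hl
    rw [D.Q_out v j l hl, D.Q_out v j l hl, D.act_zero_left, D.act_zero_left, add_zero]
  · intro h
    exact absurd (Finset.mem_univ j) h

theorem Tn_pderiv (y : FreeAlgebra ℤ I) : D.Tn v (MvPolynomial.pderiv (v none) (ab I y)) = 0 := by
  have h := D.tel v Finset.univ y
  have h1 : D.F (D.K v Finset.univ) y = ∑ k, D.F (D.act (D.K v Finset.univ)
      (MvPolynomial.pderiv k (ab I y))) (FreeAlgebra.ι ℤ k) := by
    have := D.chain (D.kill_K v) (D.K_cen v Finset.univ) 1 y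
    rw [D.act_one (D.kill_K v)] at this
    rw [this]
    simp only [one_mul]
  rw [h1, sum_vars v] at h
  have h2 : ∀ j, D.F (D.π y * D.K v (Finset.univ.erase j)) (ct v j) =
      (D.F (D.act (D.Q v j (v none) (v (some (j, false)))) (MvPolynomial.pderiv (v none) (ab I y)))
        (FreeAlgebra.ι ℤ (v (some (j, true)))) -
      D.F (D.act (D.Q v j (v none) (v (some (j, true)))) (MvPolynomial.pderiv (v none) (ab I y)))
        (FreeAlgebra.ι ℤ (v (some (j, false))))) -
      (D.F (D.act (D.K v Finset.univ) (MvPolynomial.pderiv (v (some (j, false))) (ab I y)))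
        (FreeAlgebra.ι ℤ (v (some (j, false)))) +
      D.F (D.act (D.K v Finset.univ) (MvPolynomial.pderiv (v (some (j, true))) (ab I y)))
        (FreeAlgebra.ι ℤ (v (some (j, true))))) := by
    intro j
    have hz : ∀ c : Bool, D.act (D.Q v j (v (some (j, c))) (v (some (j, c))))
        (MvPolynomial.pderiv (v (some (j, c))) (ab I y)) = 0 := by
      intro c
      rw [Q, br_self, zero_mul, D.act_zero_left]
    have e : ∀ c : Bool, br (D.π y * D.K v (Finset.univ.erase j)) (D.gn (v (some (j, c)))) =
        br (D.π y) (D.gn (v (tr j (some c)))) * D.K v (Finset.univ.erase j) := by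
      intro c
      show _ * _ - _ * _ = (_ * _ - _ * _) * _
      rw [sub_mul, mul_assoc, D.K_cen, ← mul_assoc, mul_assoc (D.gn _)]
      rfl
    rw [D.F_ct, e, e, D.br_act v j (some false), D.br_act v j (some true)]
    have t : ∀ c, tr j (some c) = some (j, c) := fun c => rfl
    rw [t, t, hz, hz, D.Q_K v j, D.Q_K' v j, D.act_neg_left, zero_add, add_zero, map_add, map_add,
      AddMonoidHom.add_apply, AddMonoidHom.add_apply, map_neg, AddMonoidHom.neg_apply]
    abel
  rw [Finset.sum_congr rfl fun j _ => h2 j, Finset.sum_sub_distrib] at h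
  rw [Tn, ← h]
  abel

end pairs

end Dat

end N36.LC
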