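import Pool.Agent.N36.LC.Alg2

/-! The computation with two variables. -/

set_option autoImplicit false

namespace N36.LC

open MvPolynomial

section pd

variable {I : Type} {x y : I} (hxy : x ≠ y) {e : MvPolynomial I ℤ} (hx : pderiv x e = 0)
  (hy : pderiv y e = 0)

include hxy hx in
theorem pd_x (a b : ℕ) : pderiv x (X x ^ (a + 1) * X y ^ b * e) =
    ((a : ℤ) + 1) • (X x ^ a * X y ^ b * e) := by
  rw [Derivation.leibniz, Derivation.leibniz, Derivation.leibniz_pow, Derivation.leibniz_pow, hx,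
    pderiv_X_self, pderiv_X_of_ne hxy.symm, zsmul_eq_mul]
  simp only [smul_eq_mul, mul_zero, smul_zero, zero_add, Nat.add_sub_cancel, mul_one,
    nsmul_eq_mul]
  push_cast
  ring

include hxy hx in
theorem pd_x0 (b : ℕ) : pderiv x (X y ^ b * e) = 0 := by
  rw [Derivation.leibniz, Derivation.leibniz_pow, hx, pderiv_X_of_ne hxy.symm]
  simp

include hxy hx in
theorem pd_xx (a b : ℕ) : pderiv x (X x ^ a * X y ^ b * e) * X x =
    (a : ℤ) • (X x ^ a * X y ^ b * e) := by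
  rcases a with _ | a
  · rw [pow_zero, one_mul, pd_x0 hxy hx]
    simp
  · rw [pd_x hxy hx, zsmul_eq_mul, zsmul_eq_mul]
    push_cast
    ring

include hxy hy in
theorem pd_y (a b : ℕ) : pderiv y (X x ^ a * X y ^ (b + 1) * e) =
    ((b : ℤ) + 1) • (X x ^ a * X y ^ b * e) := by
  have h := pd_x hxy.symm hy b a
  rw [mul_comm (X x ^ a), mul_comm (X x ^ a)]
  exact h

include hxy hy in
theorem pd_yy (a b : ℕ) : pderiv y (X x ^ a * X y ^ b * e) * X y =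
    (b : ℤ) • (X x ^ a * X y ^ b * e) := by
  have h := pd_xx hxy.symm hy b a
  rw [mul_comm (X x ^ a)]
  exact h

end pd

namespace Dat

variable {I R P : Type} [Ring R] [AddCommGroup P] (D : Dat I R P)

/-- `∂_x f • q₁ + ∂_y f • q₂` -/
noncomputable def el (x y : I) (q₁ q₂ : R) (f : MvPolynomial I ℤ) : R :=
  D.act q₁ (pderiv x f) + D.act q₂ (pderiv y f)

theorem F_sq (s : R) (x : I) : D.F s (FreeAlgebra.ι ℤ x * FreeAlgebra.ι ℤ x) =
    D.F (s * D.gn x + D.gn x * s) (FreeAlgebra.ι ℤ x) := by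
  rw [D.hF, map_add]
  rfl

theorem X_act {q : R} (hq : D.Kill q) (x : I) (f : MvPolynomial I ℤ) :
    D.gn x * D.act q f = D.act q (f * X x) := by
  rw [Dat.gn, D.act_mul hq, ab_ι, mul_comm]

theorem act_X {q : R} (hq : D.Kill q) (hc : D.Cen q) (x : I) (f : MvPolynomial I ℤ) :
    D.act q f * D.gn x = D.act q (f * X x) := by
  rw [Dat.gn, D.act_mul_right hq hc, ab_ι]

variable {x y : I} (hxy : x ≠ y) {e : MvPolynomial I ℤ} (hx : pderiv x e = 0)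
  (hy : pderiv y e = 0) {q₁ q₂ : R} (k₁ : D.Kill q₁) (c₁ : D.Cen q₁) (k₂ : D.Kill q₂)
  (c₂ : D.Cen q₂) (t : ℕ)

include hxy hx hy k₁ c₁ k₂ c₂

theorem A_one : D.F (D.el x y q₁ q₂ (X x ^ (t + 1) * X y ^ (t + 2) * e)) (FreeAlgebra.ι ℤ x) =
    ((t : ℤ) + 1) • D.F (D.act q₁ (X x ^ t * X y ^ (t + 2) * e)) (FreeAlgebra.ι ℤ x) +
    ((t : ℤ) + 2) • D.F (D.act q₂ (X x ^ (t + 1) * X y ^ (t + 1) * e)) (FreeAlgebra.ι ℤ x) := by
  rw [el, pd_x hxy hx, pd_y hxy hy, D.act_zsmul k₁, D.act_zsmul k₂, map_add, map_zsmul, map_zsmul]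
  push_cast
  rw [AddMonoidHom.add_apply, AddMonoidHom.smul_apply, AddMonoidHom.smul_apply]
  module

theorem A_two : D.F (D.el x y q₁ q₂ (X x ^ t * X y ^ (t + 2) * e))
      (FreeAlgebra.ι ℤ x * FreeAlgebra.ι ℤ x) =
    (2 * (t : ℤ)) • D.F (D.act q₁ (X x ^ t * X y ^ (t + 2) * e)) (FreeAlgebra.ι ℤ x) +
    (2 * ((t : ℤ) + 2)) • D.F (D.act q₂ (X x ^ (t + 1) * X y ^ (t + 1) * e))
      (FreeAlgebra.ι ℤ x) := by
  have e1 : D.el x y q₁ q₂ (X x ^ t * X y ^ (t + 2) * e) * D.gn x +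
      D.gn x * D.el x y q₁ q₂ (X x ^ t * X y ^ (t + 2) * e) =
      (2 * (t : ℤ)) • D.act q₁ (X x ^ t * X y ^ (t + 2) * e) +
      (2 * ((t : ℤ) + 2)) • D.act q₂ (X x ^ (t + 1) * X y ^ (t + 1) * e) := by
    rw [el, add_mul, mul_add, D.act_X k₁ c₁, D.act_X k₂ c₂, D.X_act k₁, D.X_act k₂, pd_xx hxy hx,
      pd_y hxy hy, smul_mul_assoc, D.act_zsmul k₁, D.act_zsmul k₂]
    have e2 : X x ^ t * X y ^ (t + 1) * e * X x = X x ^ (t + 1) * X y ^ (t + 1) * e := by ring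
    rw [e2]
    push_cast
    module
  rw [F_sq, e1, map_add, map_zsmul, map_zsmul]
  rw [AddMonoidHom.add_apply, AddMonoidHom.smul_apply, AddMonoidHom.smul_apply]

theorem B_one : D.F (D.el x y q₁ q₂ (X x ^ (t + 2) * X y ^ (t + 1) * e)) (FreeAlgebra.ι ℤ y) =
    ((t : ℤ) + 2) • D.F (D.act q₁ (X x ^ (t + 1) * X y ^ (t + 1) * e)) (FreeAlgebra.ι ℤ y) +
    ((t : ℤ) + 1) • D.F (D.act q₂ (X x ^ (t + 2) * X y ^ t * e)) (FreeAlgebra.ι ℤ y) := by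
  rw [el, pd_x hxy hx, pd_y hxy hy, D.act_zsmul k₁, D.act_zsmul k₂, map_add, map_zsmul, map_zsmul]
  push_cast
  rw [AddMonoidHom.add_apply, AddMonoidHom.smul_apply, AddMonoidHom.smul_apply]
  module

theorem B_two : D.F (D.el x y q₁ q₂ (X x ^ (t + 2) * X y ^ t * e))
      (FreeAlgebra.ι ℤ y * FreeAlgebra.ι ℤ y) =
    (2 * ((t : ℤ) + 2)) • D.F (D.act q₁ (X x ^ (t + 1) * X y ^ (t + 1) * e)) (FreeAlgebra.ι ℤ y) +
    (2 * (t : ℤ)) • D.F (D.act q₂ (X x ^ (t + 2) * X y ^ t * e))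
      (FreeAlgebra.ι ℤ y) := by
  have e1 : D.el x y q₁ q₂ (X x ^ (t + 2) * X y ^ t * e) * D.gn y +
      D.gn y * D.el x y q₁ q₂ (X x ^ (t + 2) * X y ^ t * e) =
      (2 * ((t : ℤ) + 2)) • D.act q₁ (X x ^ (t + 1) * X y ^ (t + 1) * e) +
      (2 * (t : ℤ)) • D.act q₂ (X x ^ (t + 2) * X y ^ t * e) := by
    rw [el, add_mul, mul_add, D.act_X k₁ c₁, D.act_X k₂ c₂, D.X_act k₁, D.X_act k₂, pd_yy hxy hy,
      pd_x hxy hx, smul_mul_assoc, D.act_zsmul k₁, D.act_zsmul k₂]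
    have e2 : X x ^ (t + 1) * X y ^ t * e * X y = X x ^ (t + 1) * X y ^ (t + 1) * e := by ring
    rw [e2]
    push_cast
    module
  rw [F_sq, e1, map_add, map_zsmul, map_zsmul]
  rw [AddMonoidHom.add_apply, AddMonoidHom.smul_apply, AddMonoidHom.smul_apply]

theorem C_one : D.F (D.el x y q₁ q₂ (X x ^ (t + 1) * X y ^ (t + 1) * e))
      (FreeAlgebra.ι ℤ x * FreeAlgebra.ι ℤ y) =
    ((t : ℤ) + 1) • (D.F (D.act q₁ (X x ^ t * X y ^ (t + 2) * e)) (FreeAlgebra.ι ℤ x) +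
      D.F (D.act q₁ (X x ^ (t + 1) * X y ^ (t + 1) * e)) (FreeAlgebra.ι ℤ y) +
      D.F (D.act q₂ (X x ^ (t + 1) * X y ^ (t + 1) * e)) (FreeAlgebra.ι ℤ x) +
      D.F (D.act q₂ (X x ^ (t + 2) * X y ^ t * e)) (FreeAlgebra.ι ℤ y)) := by
  have e1 : D.el x y q₁ q₂ (X x ^ (t + 1) * X y ^ (t + 1) * e) * D.gn x =
      ((t : ℤ) + 1) • (D.act q₁ (X x ^ (t + 1) * X y ^ (t + 1) * e) +
        D.act q₂ (X x ^ (t + 2) * X y ^ t * e)) := by
    rw [el, add_mul, D.act_X k₁ c₁, D.act_X k₂ c₂, pd_xx hxy hx, pd_y hxy hy, smul_mul_assoc,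
      D.act_zsmul k₁, D.act_zsmul k₂]
    have e2 : X x ^ (t + 1) * X y ^ t * e * X x = X x ^ (t + 2) * X y ^ t * e := by ring
    rw [e2]
    push_cast
    module
  have e3 : D.gn y * D.el x y q₁ q₂ (X x ^ (t + 1) * X y ^ (t + 1) * e) =
      ((t : ℤ) + 1) • (D.act q₁ (X x ^ t * X y ^ (t + 2) * e) +
        D.act q₂ (X x ^ (t + 1) * X y ^ (t + 1) * e)) := by
    rw [el, mul_add, D.X_act k₁, D.X_act k₂, pd_yy hxy hy, pd_x hxy hx, smul_mul_assoc,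
      D.act_zsmul k₁, D.act_zsmul k₂]
    have e2 : X x ^ t * X y ^ (t + 1) * e * X y = X x ^ t * X y ^ (t + 2) * e := by ring
    rw [e2]
    push_cast
    module
  have e4 := D.hF (D.el x y q₁ q₂ (X x ^ (t + 1) * X y ^ (t + 1) * e)) (FreeAlgebra.ι ℤ x)
    (FreeAlgebra.ι ℤ y)
  have e5 : D.F (D.el x y q₁ q₂ (X x ^ (t + 1) * X y ^ (t + 1) * e) *
      D.π (FreeAlgebra.ι ℤ x)) (FreeAlgebra.ι ℤ y) = D.F (((t : ℤ) + 1) •
      (D.act q₁ (X x ^ (t + 1) * X y ^ (t + 1) * e) +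
        D.act q₂ (X x ^ (t + 2) * X y ^ t * e))) (FreeAlgebra.ι ℤ y) := by
    rw [← e1]
    rfl
  have e6 : D.F (D.π (FreeAlgebra.ι ℤ y) *
      D.el x y q₁ q₂ (X x ^ (t + 1) * X y ^ (t + 1) * e)) (FreeAlgebra.ι ℤ x) =
      D.F (((t : ℤ) + 1) • (D.act q₁ (X x ^ t * X y ^ (t + 2) * e) +
        D.act q₂ (X x ^ (t + 1) * X y ^ (t + 1) * e))) (FreeAlgebra.ι ℤ x) := by
    rw [← e3]
    rfl
  rw [e4, e5, e6, map_zsmul, map_zsmul, map_add, map_add]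
  simp only [AddMonoidHom.add_apply, AddMonoidHom.smul_apply]
  module

end Dat

end N36.LC
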