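import Pool.Agent.N36.LC.Alg3

/-! The element `T` and its value modulo `[A, J]`. -/

set_option autoImplicit false

namespace N36.LC

open MvPolynomial

section elements

variable {I : Type} [Fintype I] [DecidableEq I] {m : ℕ} (v : Option (Fin m × Bool) ≃ I)

/-- the product of the commutators of the pairs in `S`, in the free ring -/
noncomputable def kt (S : Finset (Fin m)) : FreeAlgebra ℤ I := (S.toList.map (Dat.ct v)).prod

/-- the monomial in the variables other than `x, y` -/
noncomputable def ee (t : ℕ) (x y : I) : MvPolynomial I ℤ :=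
  ∏ k ∈ (Finset.univ.erase x).erase y, X k ^ (t + 1)

/-- the monomial `M` -/
noncomputable def MM (I : Type) [Fintype I] (t : ℕ) : MvPolynomial I ℤ := ∏ k : I, X k ^ (t + 1)

theorem MM_eq (t : ℕ) {x y : I} (h : x ≠ y) : MM I t = X x ^ (t + 1) * X y ^ (t + 1) * ee t x y := by
  rw [MM, ee, ← Finset.mul_prod_erase _ _ (Finset.mem_univ x),
    ← Finset.mul_prod_erase _ _ (Finset.mem_erase.2 ⟨h.symm, Finset.mem_univ y⟩), mul_assoc]

omit [Fintype I] in
theorem pderiv_prod_zero (t : ℕ) (x : I) (S : Finset I) (h : x ∉ S) :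
    pderiv x (∏ k ∈ S, (X k : MvPolynomial I ℤ) ^ (t + 1)) = 0 := by
  induction S using Finset.induction_on with
  | empty => rw [Finset.prod_empty, Derivation.map_one_eq_zero]
  | insert k S hk ih =>
    rw [Finset.prod_insert hk, Derivation.leibniz, Derivation.leibniz_pow,
      ih (fun h' => h (Finset.mem_insert_of_mem h')),
      pderiv_X_of_ne (fun h' : k = x => h (by rw [← h']; exact Finset.mem_insert_self k S))]
    simp

theorem ee_x (t : ℕ) (x y : I) : pderiv x (ee t x y) = 0 :=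
  pderiv_prod_zero t x _ (fun h => by simp at h)

theorem ee_y (t : ℕ) (x y : I) : pderiv y (ee t x y) = 0 :=
  pderiv_prod_zero t y _ (fun h => by simp at h)

/-- the element `[f, z κ_j]` of `L_2` -/
noncomputable def lf (j : Fin m) (c : Bool) (f : MvPolynomial I ℤ) : FreeAlgebra ℤ I :=
  br (sg f) (FreeAlgebra.ι ℤ (v (some (j, c))) * kt v (Finset.univ.erase j))

noncomputable def A1 (t : ℕ) (j : Fin m) (c : Bool) : FreeAlgebra ℤ I :=
  br (lf v j c (X (v none) ^ (t + 1) * X (v (some (j, !c))) ^ (t + 2) *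
    ee t (v none) (v (some (j, !c))))) (FreeAlgebra.ι ℤ (v none))

noncomputable def A2 (t : ℕ) (j : Fin m) (c : Bool) : FreeAlgebra ℤ I :=
  br (lf v j c (X (v none) ^ t * X (v (some (j, !c))) ^ (t + 2) *
    ee t (v none) (v (some (j, !c))))) (FreeAlgebra.ι ℤ (v none) * FreeAlgebra.ι ℤ (v none))

noncomputable def B1 (t : ℕ) (j : Fin m) (c : Bool) : FreeAlgebra ℤ I :=
  br (lf v j c (X (v none) ^ (t + 2) * X (v (some (j, !c))) ^ (t + 1) *
    ee t (v none) (v (some (j, !c))))) (FreeAlgebra.ι ℤ (v (some (j, !c))))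

noncomputable def B2 (t : ℕ) (j : Fin m) (c : Bool) : FreeAlgebra ℤ I :=
  br (lf v j c (X (v none) ^ (t + 2) * X (v (some (j, !c))) ^ t *
    ee t (v none) (v (some (j, !c)))))
      (FreeAlgebra.ι ℤ (v (some (j, !c))) * FreeAlgebra.ι ℤ (v (some (j, !c))))

noncomputable def C1 (t : ℕ) (j : Fin m) (c : Bool) : FreeAlgebra ℤ I :=
  br (lf v j c (X (v none) ^ (t + 1) * X (v (some (j, !c))) ^ (t + 1) *
    ee t (v none) (v (some (j, !c)))))
      (FreeAlgebra.ι ℤ (v none) * FreeAlgebra.ι ℤ (v (some (j, !c))))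

noncomputable def tD (t : ℕ) (j : Fin m) (c : Bool) : FreeAlgebra ℤ I :=
  (2 : ℤ) • C1 v t j c - ((t : ℤ) + 1) •
    ((2 : ℤ) • A1 v t j c - A2 v t j c + (2 : ℤ) • B1 v t j c - B2 v t j c)

/-- the torsion element -/
noncomputable def TT (t : ℕ) (j₀ : Fin m) : FreeAlgebra ℤ I :=
  ∑ j, (tD v t j false - tD v t j true) +
    ((t : ℤ) + 1) • (((t : ℤ) + 1) • A2 v t j₀ true - (2 * (t : ℤ)) • A1 v t j₀ true)

/-- a lift of `M` -/
noncomputable def Mt (I : Type) [Fintype I] (t : ℕ) : FreeAlgebra ℤ I :=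
  ((Finset.univ : Finset I).toList.map fun k => FreeAlgebra.ι ℤ k ^ (t + 1)).prod

omit [DecidableEq I] in
theorem ab_Mt (t : ℕ) : ab I (Mt I t) = MM I t := by
  rw [Mt, map_list_prod, List.map_map, MM, ← Finset.prod_map_toList]
  congr 1
  apply List.map_congr_left
  intro k _
  simp only [Function.comp_apply, map_pow, ab_ι]

/-- the first components `m_k` with `T_new = ∑ [m_k, x_k]` -/
noncomputable def mn (t : ℕ) (k : I) : FreeAlgebra ℤ I :=
  match v.symm k with
  | none => Mt I t * kt v Finset.univ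
  | some (j, false) => - (Mt I t * (br (FreeAlgebra.ι ℤ (v none))
      (FreeAlgebra.ι ℤ (v (some (j, true)))) * kt v (Finset.univ.erase j)))
  | some (j, true) => Mt I t * (br (FreeAlgebra.ι ℤ (v none))
      (FreeAlgebra.ι ℤ (v (some (j, false)))) * kt v (Finset.univ.erase j))

end elements

namespace Dat

variable {I R P : Type} [Ring R] [AddCommGroup P] (D : Dat I R P) [Fintype I] [DecidableEq I]
  {m : ℕ} (v : Option (Fin m × Bool) ≃ I) (mk : FreeAlgebra ℤ I →+ P)
  (hmk : ∀ s g, mk (br s g) = D.F (D.π s) g)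

omit [Fintype I] [DecidableEq I] in
theorem π_kt (S : Finset (Fin m)) : D.π (kt v S) = D.K v S := by
  have h : D.K v S = (Subring.center R).subtype (∏ l ∈ S, D.cc v l) := rfl
  rw [h, ← Finset.prod_map_toList, map_list_prod, kt, map_list_prod, List.map_map, List.map_map]
  congr 1
  apply List.map_congr_left
  intro l _
  simp only [Function.comp_apply]
  rw [D.π_ct]
  rfl

omit [Fintype I] [DecidableEq I] in
theorem vne (j : Fin m) (c : Bool) : v none ≠ v (some (j, c)) := by
  intro h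
  have := v.injective h
  simp at this

theorem π_lf (j : Fin m) (c : Bool) (f : MvPolynomial I ℤ) :
    D.π (lf v j c f) = D.el (v none) (v (some (j, !c))) (D.Q v j (v none) (v (some (j, c))))
      (D.Q v j (v (some (j, !c))) (v (some (j, c)))) f := by
  rw [lf, D.π_br, map_mul, D.π_kt]
  have h1 : br (D.π (sg f)) (D.π (FreeAlgebra.ι ℤ (v (some (j, c)))) *
      D.K v (Finset.univ.erase j)) = br (D.π (sg f)) (D.gn (v (tr j (some c)))) *
        D.K v (Finset.univ.erase j) := by
    show _ * (_ * _) - _ * _ * _ = (_ * _ - _ * _) * _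
    rw [sub_mul, mul_assoc (D.π _) (D.K v _) (D.π (sg f)), D.K_cen v _ (D.π (sg f)), ← mul_assoc,
      ← mul_assoc]
    rfl
  rw [h1, D.br_act, ab_sg, el]
  have t : ∀ c, tr j (some c) = some (j, c) := fun c => rfl
  rw [t]
  congr 1
  have hz : ∀ c : Bool, D.act (D.Q v j (v (some (j, c))) (v (some (j, c))))
      (MvPolynomial.pderiv (v (some (j, c))) f) = 0 := by
    intro c
    rw [Q, br_self, zero_mul, D.act_zero_left]
  cases c
  · rw [hz false, zero_add]
    rfl
  · rw [hz true, add_zero]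
    rfl

include hmk in
theorem mk_tD (t : ℕ) (j : Fin m) (c : Bool) : mk (tD v t j c) =
    (2 * ((t : ℤ) + 1)) • (D.F (D.act (D.Q v j (v none) (v (some (j, c)))) (MM I t))
        (FreeAlgebra.ι ℤ (v (some (j, !c)))) +
      D.F (D.act (D.Q v j (v (some (j, !c))) (v (some (j, c)))) (MM I t))
        (FreeAlgebra.ι ℤ (v none))) := by
  have hne := vne v j (!c)
  have k1 : D.Kill (D.Q v j (v none) (v (some (j, c)))) := D.Q_kill v j (v none) (some c)
  have k2 : D.Kill (D.Q v j (v (some (j, !c))) (v (some (j, c)))) :=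
    D.Q_kill v j (v (some (j, !c))) (some c)
  have c1 := D.Q_cen v j (v none) (v (some (j, c)))
  have c2 := D.Q_cen v j (v (some (j, !c))) (v (some (j, c)))
  have a1 : mk (A1 v t j c) = _ := (hmk _ _).trans ((congrFun (congrArg _
    (congrArg D.F (D.π_lf v j c _))) _).trans
      (D.A_one hne (ee_x t _ _) (ee_y t _ _) k1 c1 k2 c2 t))
  have a2 : mk (A2 v t j c) = _ := (hmk _ _).trans ((congrFun (congrArg _
    (congrArg D.F (D.π_lf v j c _))) _).trans
      (D.A_two hne (ee_x t _ _) (ee_y t _ _) k1 c1 k2 c2 t))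
  have b1 : mk (B1 v t j c) = _ := (hmk _ _).trans ((congrFun (congrArg _
    (congrArg D.F (D.π_lf v j c _))) _).trans
      (D.B_one hne (ee_x t _ _) (ee_y t _ _) k1 c1 k2 c2 t))
  have b2 : mk (B2 v t j c) = _ := (hmk _ _).trans ((congrFun (congrArg _
    (congrArg D.F (D.π_lf v j c _))) _).trans
      (D.B_two hne (ee_x t _ _) (ee_y t _ _) k1 c1 k2 c2 t))
  have cc : mk (C1 v t j c) = _ := (hmk _ _).trans ((congrFun (congrArg _
    (congrArg D.F (D.π_lf v j c _))) _).trans
      (D.C_one hne (ee_x t _ _) (ee_y t _ _) k1 c1 k2 c2 t))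
  rw [tD, map_sub, map_zsmul, map_zsmul, map_sub, map_add, map_sub, map_zsmul, map_zsmul, a1, a2,
    b1, b2, cc, MM_eq t hne]
  module

include hmk in
theorem mk_w (t : ℕ) (j : Fin m) :
    mk (((t : ℤ) + 1) • A2 v t j true - (2 * (t : ℤ)) • A1 v t j true) =
    (2 * ((t : ℤ) + 2)) • D.F (D.act (D.K v Finset.univ) (MM I t)) (FreeAlgebra.ι ℤ (v none)) := by
  have hne := vne v j (!true)
  have k1 : D.Kill (D.Q v j (v none) (v (some (j, true)))) := D.Q_kill v j (v none) (some true)
  have k2 : D.Kill (D.Q v j (v (some (j, !true))) (v (some (j, true)))) :=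
    D.Q_kill v j (v (some (j, !true))) (some true)
  have c1 := D.Q_cen v j (v none) (v (some (j, true)))
  have c2 := D.Q_cen v j (v (some (j, !true))) (v (some (j, true)))
  have a1 : mk (A1 v t j true) = _ := (hmk _ _).trans ((congrFun (congrArg _
    (congrArg D.F (D.π_lf v j true _))) _).trans
      (D.A_one hne (ee_x t _ _) (ee_y t _ _) k1 c1 k2 c2 t))
  have a2 : mk (A2 v t j true) = _ := (hmk _ _).trans ((congrFun (congrArg _
    (congrArg D.F (D.π_lf v j true _))) _).trans
      (D.A_two hne (ee_x t _ _) (ee_y t _ _) k1 c1 k2 c2 t))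
  have q : D.Q v j (v (some (j, !true))) (v (some (j, true))) = D.K v Finset.univ := D.Q_K v j
  rw [map_sub, map_zsmul, map_zsmul, a1, a2, q, MM_eq t hne]
  module

include hmk in
theorem mk_TT (t : ℕ) (j₀ : Fin m) (ht : t + 2 = 2 * m + 1) :
    mk (TT v t j₀) = (2 * ((t : ℤ) + 1)) • D.Tn v (MM I t) := by
  have hj : ∀ j : Fin m, mk (tD v t j false - tD v t j true) = (2 * ((t : ℤ) + 1)) •
      (D.F (D.act (D.Q v j (v none) (v (some (j, false)))) (MM I t))
        (FreeAlgebra.ι ℤ (v (some (j, true)))) -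
      D.F (D.act (D.Q v j (v none) (v (some (j, true)))) (MM I t))
        (FreeAlgebra.ι ℤ (v (some (j, false))))) - (4 * ((t : ℤ) + 1)) •
      D.F (D.act (D.K v Finset.univ) (MM I t)) (FreeAlgebra.ι ℤ (v none)) := by
    intro j
    have q : D.Q v j (v (some (j, !true))) (v (some (j, true))) = D.K v Finset.univ := D.Q_K v j
    have q' : D.Q v j (v (some (j, !false))) (v (some (j, false))) = - D.K v Finset.univ :=
      D.Q_K' v j
    rw [map_sub, D.mk_tD v mk hmk, D.mk_tD v mk hmk, q, q', D.act_neg_left, map_neg,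
      AddMonoidHom.neg_apply, Bool.not_false, Bool.not_true]
    module
  rw [TT, map_add, map_sum, Finset.sum_congr rfl fun j _ => hj j, Finset.sum_sub_distrib,
    Finset.sum_const, Finset.card_univ, Fintype.card_fin, map_zsmul, D.mk_w v mk hmk, Tn,
    smul_add, Finset.smul_sum]
  have ht' : (t : ℤ) = 2 * m - 1 := by omega
  rw [← natCast_zsmul]
  have e : ∀ (a b : P), a - (m : ℤ) • (4 * ((t : ℤ) + 1)) • b + ((t : ℤ) + 1) •
      (2 * ((t : ℤ) + 2)) • b = (2 * ((t : ℤ) + 1)) • b + a := by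
    intro a b
    rw [ht']
    module
  exact e _ _

include hmk in
theorem mk_Tn (t : ℕ) : D.Tn v (MM I t) = mk (∑ k, br (mn v t k) (FreeAlgebra.ι ℤ k)) := by
  rw [sum_vars v, map_add, map_sum, Tn]
  have h0 : ∀ {q : R} (hq : D.Kill q), D.act q (MM I t) = D.π (Mt I t) * q := by
    intro q hq
    rw [← ab_Mt, D.act_ab hq]
  congr 1
  · rw [hmk, mn, v.symm_apply_apply, map_mul, D.π_kt, h0 (D.kill_K v)]
  · apply Finset.sum_congr rfl
    intro j _
    rw [map_add, hmk, hmk, mn, mn, v.symm_apply_apply, v.symm_apply_apply]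
    simp only [map_neg, AddMonoidHom.neg_apply, map_mul, D.π_kt, D.π_br]
    have k1 := h0 (D.Q_kill v j (v none) (some false))
    have k2 := h0 (D.Q_kill v j (v none) (some true))
    have t1 : tr j (some false) = some (j, false) := rfl
    have t2 : tr j (some true) = some (j, true) := rfl
    rw [t1] at k1
    rw [t2] at k2
    rw [k1, k2]
    simp only [Q, gn]
    abel

theorem Tn_zsmul (n : ℤ) (f : MvPolynomial I ℤ) : D.Tn v (n • f) = n • D.Tn v f := by
  have k0 := D.kill_K v
  have k1 : ∀ j, D.Kill (D.Q v j (v none) (v (some (j, false)))) := fun j =>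
    D.Q_kill v j (v none) (some false)
  have k2 : ∀ j, D.Kill (D.Q v j (v none) (v (some (j, true)))) := fun j =>
    D.Q_kill v j (v none) (some true)
  rw [Tn, Tn, smul_add, Finset.smul_sum, D.act_zsmul k0, map_zsmul, AddMonoidHom.smul_apply]
  congr 1
  apply Finset.sum_congr rfl
  intro j _
  rw [smul_sub, D.act_zsmul (k1 j), D.act_zsmul (k2 j), map_zsmul, map_zsmul,
    AddMonoidHom.smul_apply, AddMonoidHom.smul_apply]

/-- from `T` to `T_new` -/
theorem Tn_mul_eq_zero (t : ℕ) (n : ℕ) (j : Fin m) (hn : t + 2 = n) :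
    (n : ℤ) • D.Tn v (MM I t) = 0 := by
  have h2 := D.Tn_pderiv v (sg (MvPolynomial.X (v none) * MM I t))
  rw [ab_sg] at h2
  have hne := vne v j true
  have h3 : MvPolynomial.pderiv (v none) (MvPolynomial.X (v none) * MM I t) =
      (n : ℤ) • MM I t := by
    rw [MM_eq t hne]
    have h4 := pd_x hne (ee_x t (v none) (v (some (j, true)))) (t + 1) (t + 1)
    have h5 : MvPolynomial.X (v none) * (MvPolynomial.X (v none) ^ (t + 1) *
        MvPolynomial.X (v (some (j, true))) ^ (t + 1) * ee t (v none) (v (some (j, true)))) =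
        MvPolynomial.X (v none) ^ (t + 1 + 1) * MvPolynomial.X (v (some (j, true))) ^ (t + 1) *
          ee t (v none) (v (some (j, true))) := by ring
    have h6 : (((t + 1 : ℕ)) : ℤ) + 1 = n := by
      rw [← hn]
      push_cast
      ring
    rw [h5, h4, h6]
  rw [h3, D.Tn_zsmul] at h2
  exact h2

include hmk in
theorem mk_TT_mul (t : ℕ) (j₀ : Fin m) (n : ℕ) (ht : t + 2 = 2 * m + 1) (hn : t + 2 = n) :
    mk (n • TT v t j₀) = 0 := by
  rw [map_nsmul, D.mk_TT v mk hmk t j₀ ht, ← natCast_zsmul, smul_comm,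
    D.Tn_mul_eq_zero v t n j₀ hn, smul_zero]

include hmk in
theorem mk_mn_mul (t : ℕ) (j₀ : Fin m) (n : ℕ) (ht : t + 2 = 2 * m + 1)
    (h0 : mk (n • TT v t j₀) = 0) :
    mk (((n : ℤ) * (2 * ((t : ℤ) + 1))) • ∑ k, br (mn v t k) (FreeAlgebra.ι ℤ k)) = 0 := by
  rw [map_zsmul, ← D.mk_Tn v mk hmk, mul_smul, ← D.mk_TT v mk hmk t j₀ ht, natCast_zsmul,
    ← map_nsmul, h0]

end Dat

end N36.LC
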