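import Pool.Agent.N36.LC.Stm

/-! Basic facts about `top` and products of elements of degree one. -/

set_option autoImplicit false

namespace N36.LC

open ExteriorAlgebra

theorem top_ofFn (p k : ℕ) (v : Fin k → Fin p → ℤ) :
    top p (List.ofFn fun i => ι ℤ (v i)).prod = detFam p k v := by
  rw [← ιMulti_apply, top, liftAlternating_apply_ιMulti]

theorem detFam_self (p : ℕ) (v : Fin p → Fin p → ℤ) : detFam p p v = Matrix.det v := by
  rw [detFam, dif_pos rfl]
  rfl

theorem detFam_ne (p k : ℕ) (h : k ≠ p) (v : Fin k → Fin p → ℤ) : detFam p k v = 0 := by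
  rw [detFam, dif_neg h]
  rfl

theorem topProd : TopProd :=
  ⟨fun p v => by rw [top_ofFn, detFam_self], fun p k v h => by rw [top_ofFn, detFam_ne p k h]⟩

/-- products of `k` elements of degree one -/
def IsMon {p : ℕ} (k : ℕ) (g : Lam p) : Prop :=
  ∃ l : List (Fin p → ℤ), l.length = k ∧ g = (l.map (ι ℤ)).prod

theorem IsMon.one {p : ℕ} : IsMon 0 (1 : Lam p) := ⟨[], rfl, rfl⟩

theorem IsMon.xi {p : ℕ} (i : Fin p) : IsMon 1 (xi i) := ⟨[Pi.single i 1], rfl, by simp [LC.xi]⟩

theorem IsMon.io {p : ℕ} (v : Fin p → ℤ) : IsMon 1 (ι ℤ v) := ⟨[v], rfl, by simp⟩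

theorem IsMon.mul {p k l : ℕ} {g h : Lam p} (hg : IsMon k g) (hh : IsMon l h) :
    IsMon (k + l) (g * h) := by
  obtain ⟨a, rfl, rfl⟩ := hg
  obtain ⟨b, rfl, rfl⟩ := hh
  exact ⟨a ++ b, by simp, by simp⟩

theorem IsMon.top_eq_zero {p k : ℕ} {g : Lam p} (hg : IsMon k g) (h : k ≠ p) : top p g = 0 := by
  obtain ⟨l, rfl, rfl⟩ := hg
  have := topProd.2 p l.length (fun i => l.get i) h
  rw [← this]
  congr 2
  conv_lhs => rw [← List.ofFn_get l]
  rw [List.map_ofFn]
  rfl

/-- linear induction: an additive property which holds for products of elements of degree one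
holds for all elements -/
theorem lam_span {p : ℕ} (P : Lam p → Prop) (h0 : P 0) (hadd : ∀ g h, P g → P h → P (g + h))
    (hsmul : ∀ (c : ℤ) g, P g → P (c • g)) (hmon : ∀ k g, IsMon k g → P g) (g : Lam p) : P g := by
  let S : Submodule ℤ (Lam p) := Submodule.span ℤ {g | ∃ k, IsMon k g}
  have hS : S = ⊤ := by
    rw [eq_top_iff]
    rintro g -
    induction g using ExteriorAlgebra.induction with
    | algebraMap r =>
      rw [Algebra.algebraMap_eq_smul_one]
      exact S.smul_mem _ (Submodule.subset_span ⟨0, IsMon.one⟩)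
    | ι x => exact Submodule.subset_span ⟨1, IsMon.io x⟩
    | mul a b ha hb =>
      have : S * S ≤ S := by
        rw [Submodule.span_mul_span]
        apply Submodule.span_mono
        rintro _ ⟨x, ⟨k, hk⟩, y, ⟨l, hl⟩, rfl⟩
        exact ⟨k + l, hk.mul hl⟩
      exact this (Submodule.mul_mem_mul ha hb)
    | add a b ha hb => exact S.add_mem ha hb
  have hg : g ∈ S := hS ▸ Submodule.mem_top
  refine Submodule.span_induction (p := fun g _ => P g) ?_ h0 (fun x y _ _ => hadd x y)
    (fun c x _ => hsmul c x) hg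
  rintro x ⟨k, hk⟩
  exact hmon k x hk

/-- an element of degree one and a product of `k` elements of degree one -/
theorem io_mul_mon {p k : ℕ} (v : Fin p → ℤ) {g : Lam p} (hg : IsMon k g) :
    ι ℤ v * g = (-1 : ℤ) ^ k • (g * ι ℤ v) := by
  obtain ⟨l, rfl, rfl⟩ := hg
  induction l with
  | nil => simp
  | cons a l ih =>
    simp only [List.map_cons, List.prod_cons, List.length_cons]
    have h1 : ι ℤ v * ι ℤ a = -(ι ℤ a * ι ℤ v) := eq_neg_of_add_eq_zero_left (ι_add_mul_swap v a)
    rw [← mul_assoc, h1, neg_mul, mul_assoc, ih, pow_succ, mul_neg_one, neg_smul, mul_smul_comm,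
      mul_assoc]

theorem mon_mul_mon {p k l : ℕ} {g h : Lam p} (hg : IsMon k g) (hh : IsMon l h) :
    g * h = (-1 : ℤ) ^ (k * l) • (h * g) := by
  obtain ⟨a, rfl, rfl⟩ := hg
  induction a with
  | nil => simp
  | cons x a ih =>
    simp only [List.map_cons, List.prod_cons, List.length_cons]
    rw [mul_assoc, ih, mul_smul_comm, ← mul_assoc, io_mul_mon x hh, smul_mul_assoc, smul_smul,
      mul_assoc]
    congr 1
    ring

end N36.LC
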