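import Pool.Agent.N36.LC.Base

/-! The Euler operator of the exterior algebra. -/

set_option autoImplicit false

namespace N36.LC

open ExteriorAlgebra

/-- the linear map `v ↦ v + ε v` -/
noncomputable def eulLin (p : ℕ) : (Fin p → ℤ) →ₗ[ℤ] TrivSqZeroExt (Lam p) (Lam p) :=
  (TrivSqZeroExt.inlHom (Lam p) (Lam p)).toAddMonoidHom.toIntLinearMap.comp (ι ℤ) +
    (TrivSqZeroExt.inrHom (Lam p) (Lam p)).toAddMonoidHom.toIntLinearMap.comp (ι ℤ)

theorem eulLin_apply (p : ℕ) (v : Fin p → ℤ) :
    eulLin p v = TrivSqZeroExt.inl (ι ℤ v) + TrivSqZeroExt.inr (ι ℤ v) := rfl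

theorem eulLin_sq (p : ℕ) (v : Fin p → ℤ) : eulLin p v * eulLin p v = 0 := by
  rw [eulLin_apply]
  ext
  · simp
  · simp

/-- the algebra homomorphism `g ↦ g + ε N g` -/
noncomputable def eulHom (p : ℕ) : Lam p →ₐ[ℤ] TrivSqZeroExt (Lam p) (Lam p) :=
  ExteriorAlgebra.lift ℤ ⟨eulLin p, eulLin_sq p⟩

theorem eulHom_ι (p : ℕ) (v : Fin p → ℤ) : eulHom p (ι ℤ v) = eulLin p v :=
  ExteriorAlgebra.lift_ι_apply ℤ (eulLin p) (eulLin_sq p) v

theorem eulHom_fst (p : ℕ) (g : Lam p) : (eulHom p g).fst = g := by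
  induction g using ExteriorAlgebra.induction with
  | algebraMap r =>
    rw [AlgHom.commutes]
    rfl
  | ι x =>
    rw [eulHom_ι, eulLin_apply]
    simp
  | mul a b ha hb => rw [map_mul, TrivSqZeroExt.fst_mul, ha, hb]
  | add a b ha hb => rw [map_add, TrivSqZeroExt.fst_add, ha, hb]

/-- the Euler operator -/
noncomputable def eul (p : ℕ) (g : Lam p) : Lam p := (eulHom p g).snd

theorem eul_add {p : ℕ} (g h : Lam p) : eul p (g + h) = eul p g + eul p h := by
  unfold eul
  rw [map_add, TrivSqZeroExt.snd_add]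

theorem eul_zero {p : ℕ} : eul p 0 = 0 := by
  unfold eul
  rw [map_zero, TrivSqZeroExt.snd_zero]

theorem eul_one {p : ℕ} : eul p 1 = 0 := by
  unfold eul
  rw [map_one, TrivSqZeroExt.snd_one]

theorem eul_smul {p : ℕ} (c : ℤ) (g : Lam p) : eul p (c • g) = c • eul p g := by
  unfold eul
  rw [map_smul, TrivSqZeroExt.snd_smul]

theorem eul_ι {p : ℕ} (v : Fin p → ℤ) : eul p (ι ℤ v) = ι ℤ v := by
  unfold eul
  rw [eulHom_ι, eulLin_apply]
  simp

theorem eul_mul {p : ℕ} (g h : Lam p) : eul p (g * h) = g * eul p h + eul p g * h := by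
  unfold eul
  rw [map_mul, TrivSqZeroExt.snd_mul, eulHom_fst, eulHom_fst]
  rfl

/-- products of `k` elements of degree one -/
theorem eul_mon {p k : ℕ} {g : Lam p} (hg : IsMon k g) : eul p g = (k : ℤ) • g := by
  obtain ⟨l, rfl, rfl⟩ := hg
  induction l with
  | nil => simp [eul_one]
  | cons a l ih =>
    rw [List.map_cons, List.prod_cons, eul_mul, ih, eul_ι, List.length_cons]
    push_cast
    rw [add_smul, one_smul, mul_smul_comm]

theorem top_eul {p : ℕ} (g : Lam p) : top p (eul p g) = (p : ℤ) * top p g := by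
  refine lam_span (fun g => top p (eul p g) = (p : ℤ) * top p g) ?_ ?_ ?_ ?_ g
  · rw [eul_zero]
    simp
  · intro g h hg hh
    rw [eul_add, map_add, map_add, hg, hh]
    ring
  · intro c g hg
    rw [eul_smul, map_smul, map_smul, hg, smul_eq_mul, smul_eq_mul]
    ring
  · intro k g hg
    rw [eul_mon hg, map_smul, smul_eq_mul]
    by_cases h : k = p
    · rw [h]
    · rw [hg.top_eq_zero h]
      simp

/-- Leibniz rule for a product of a list -/
theorem eul_prod {p : ℕ} : ∀ (n : ℕ) (F : Fin n → Lam p),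
    eul p (List.ofFn F).prod =
      ∑ t, (List.ofFn fun s => if s = t then eul p (F s) else F s).prod := by
  intro n
  induction n with
  | zero =>
    intro F
    simp [eul_one]
  | succ n ih =>
    intro F
    rw [List.ofFn_succ, List.prod_cons, eul_mul, ih, Fin.sum_univ_succ, add_comm,
      Finset.mul_sum]
    congr 1
    · rw [List.ofFn_succ, List.prod_cons, if_pos rfl]
      congr 3
    · refine Finset.sum_congr rfl (fun j _ => ?_)
      rw [List.ofFn_succ, List.prod_cons, if_neg (Fin.succ_ne_zero j).symm]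
      congr 3
      funext i
      by_cases h : i = j
      · rw [if_pos h, if_pos (by rw [h])]
      · rw [if_neg h, if_neg (fun h' => h (Fin.succ_injective _ h'))]

theorem euler : Euler := by
  intro p n w
  have h1 : ∀ s, eul p (1 + xi (w s)) = xi (w s) := by
    intro s
    rw [eul_add, eul_one, zero_add]
    exact eul_ι _
  have h2 : eul p (G1 w) = ∑ t, H1 w t := by
    unfold G1 H1
    rw [eul_prod]
    simp only [h1]
  rw [← top_eul, h2, map_sum]

end N36.LC
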