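import Pool.Agent.N36.LC.Base

/-! Closed Hochschild 1-chains of the free ring. -/

set_option autoImplicit false

namespace N36.LC

/-- the word as an element of the free ring -/
noncomputable def wd {p : ℕ} (u : List (Fin p)) : A p := (u.map (FreeAlgebra.ι ℤ)).prod

theorem wd_append {p : ℕ} (u v : List (Fin p)) : wd (u ++ v) = wd u * wd v := by
  unfold wd
  rw [List.map_append, List.prod_append]

theorem wd_single {p : ℕ} (i : Fin p) : wd [i] = FreeAlgebra.ι ℤ i := by
  simp [wd]

/-- linear induction in the free ring -/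
theorem A_span {p : ℕ} (P : A p → Prop) (h0 : P 0) (hadd : ∀ g h, P g → P h → P (g + h))
    (hsmul : ∀ (c : ℤ) g, P g → P (c • g)) (hwd : ∀ u, P (wd u)) (a : A p) : P a := by
  let S : Submodule ℤ (A p) := Submodule.span ℤ (Set.range (wd : List (Fin p) → A p))
  have hS : S = ⊤ := by
    rw [eq_top_iff]
    rintro g -
    induction g using FreeAlgebra.induction with
    | grade0 r =>
      rw [Algebra.algebraMap_eq_smul_one]
      exact S.smul_mem _ (Submodule.subset_span ⟨[], rfl⟩)
    | grade1 x => exact Submodule.subset_span ⟨[x], wd_single x⟩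
    | mul a b ha hb =>
      refine Submodule.span_induction (p := fun x _ => x * b ∈ S) ?_ ?_ ?_ ?_ ha
      · rintro _ ⟨u, rfl⟩
        refine Submodule.span_induction (p := fun y _ => wd u * y ∈ S) ?_ ?_ ?_ ?_ hb
        · rintro _ ⟨v, rfl⟩
          rw [← wd_append]
          exact Submodule.subset_span ⟨u ++ v, rfl⟩
        · rw [mul_zero]
          exact S.zero_mem
        · intro x y _ _ hx hy
          rw [mul_add]
          exact S.add_mem hx hy
        · intro c x _ hx
          rw [mul_smul_comm]
          exact S.smul_mem c hx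
      · rw [zero_mul]
        exact S.zero_mem
      · intro x y _ _ hx hy
        rw [add_mul]
        exact S.add_mem hx hy
      · intro c x _ hx
        rw [smul_mul_assoc]
        exact S.smul_mem c hx
    | add a b ha hb => exact S.add_mem ha hb
  have hg : a ∈ S := hS ▸ Submodule.mem_top
  refine Submodule.span_induction (p := fun g _ => P g) ?_ h0 (fun x y _ _ => hadd x y)
    (fun c x _ => hsmul c x) hg
  rintro x ⟨u, rfl⟩
  exact hwd u

/-- the coefficient of a word -/
noncomputable def cf {p : ℕ} (u : List (Fin p)) (a : A p) : ℤ :=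
  (FreeAlgebra.equivMonoidAlgebraFreeMonoid (R := ℤ) a).coeff (FreeMonoid.ofList u)

theorem cf_zero {p : ℕ} (u : List (Fin p)) : cf u (0 : A p) = 0 := by
  simp [cf]

theorem cf_add {p : ℕ} (u : List (Fin p)) (a b : A p) : cf u (a + b) = cf u a + cf u b := by
  simp [cf]

theorem cf_neg {p : ℕ} (u : List (Fin p)) (a : A p) : cf u (-a) = -cf u a := by
  have := cf_add u a (-a)
  rw [add_neg_cancel, cf_zero] at this
  linarith

theorem cf_sub {p : ℕ} (u : List (Fin p)) (a b : A p) : cf u (a - b) = cf u a - cf u b := by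
  rw [sub_eq_add_neg, cf_add, cf_neg, sub_eq_add_neg]

theorem cf_smul {p : ℕ} (u : List (Fin p)) (c : ℤ) (a : A p) : cf u (c • a) = c * cf u a := by
  unfold cf
  rw [map_smul, MonoidAlgebra.coeff_smul, Finsupp.smul_apply, smul_eq_mul]

theorem cf_sum {p : ℕ} {ι : Type} (s : Finset ι) (u : List (Fin p)) (f : ι → A p) :
    cf u (∑ i ∈ s, f i) = ∑ i ∈ s, cf u (f i) := by
  classical
  induction s using Finset.induction_on with
  | empty => simp [cf_zero]
  | insert i s hi ih => rw [Finset.sum_insert hi, Finset.sum_insert hi, cf_add, ih]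

theorem equiv_wd {p : ℕ} (v : List (Fin p)) :
    FreeAlgebra.equivMonoidAlgebraFreeMonoid (R := ℤ) (wd v) =
      MonoidAlgebra.single (FreeMonoid.ofList v) 1 := by
  induction v with
  | nil =>
    have : wd ([] : List (Fin p)) = 1 := rfl
    rw [this, map_one]
    rfl
  | cons i v ih =>
    have h1 : wd (i :: v) = FreeAlgebra.ι ℤ i * wd v := by
      simp [wd]
    rw [h1, map_mul, ih]
    have h2 : FreeAlgebra.equivMonoidAlgebraFreeMonoid (R := ℤ) (FreeAlgebra.ι ℤ i) =
        MonoidAlgebra.single (FreeMonoid.of i) 1 := by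
      simp [FreeAlgebra.equivMonoidAlgebraFreeMonoid, MonoidAlgebra.of_apply]
    rw [h2, MonoidAlgebra.single_mul_single, mul_one]
    rfl

open Classical in
theorem cf_wd {p : ℕ} (u v : List (Fin p)) : cf u (wd v) = if v = u then 1 else 0 := by
  unfold cf
  rw [equiv_wd, MonoidAlgebra.coeff_single, Finsupp.single_apply]
  congr 1

theorem cf_right {p : ℕ} (u : List (Fin p)) (i j : Fin p) (a : A p) :
    cf (u ++ [j]) (a * FreeAlgebra.ι ℤ i) = if i = j then cf u a else 0 := by
  refine A_span (fun a => cf (u ++ [j]) (a * FreeAlgebra.ι ℤ i) = if i = j then cf u a else 0)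
    ?_ ?_ ?_ ?_ a
  · simp [cf_zero]
  · intro g h hg hh
    rw [add_mul, cf_add, cf_add, hg, hh]
    split_ifs <;> simp
  · intro c g hg
    rw [smul_mul_assoc, cf_smul, cf_smul, hg]
    split_ifs <;> simp
  · intro v
    have h1 : wd v * FreeAlgebra.ι ℤ i = wd (v ++ [i]) := by rw [wd_append, wd_single]
    rw [h1, cf_wd, cf_wd]
    by_cases hij : i = j
    · subst hij
      simp
    · rw [if_neg hij, if_neg]
      intro h
      have := congrArg (fun l => l.getLast?) h
      simp at this
      exact hij this

theorem cf_left {p : ℕ} (u : List (Fin p)) (i j : Fin p) (a : A p) :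
    cf (j :: u) (FreeAlgebra.ι ℤ i * a) = if i = j then cf u a else 0 := by
  refine A_span (fun a => cf (j :: u) (FreeAlgebra.ι ℤ i * a) = if i = j then cf u a else 0)
    ?_ ?_ ?_ ?_ a
  · simp [cf_zero]
  · intro g h hg hh
    rw [mul_add, cf_add, cf_add, hg, hh]
    split_ifs <;> simp
  · intro c g hg
    rw [mul_smul_comm, cf_smul, cf_smul, hg]
    split_ifs <;> simp
  · intro v
    have h1 : FreeAlgebra.ι ℤ i * wd v = wd (i :: v) := by simp [wd]
    rw [h1, cf_wd, cf_wd]
    by_cases hij : i = j
    · subst hij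
      simp
    · rw [if_neg hij, if_neg]
      intro h
      exact hij (List.cons.inj h).1

/-- the cycle condition on the coefficients -/
theorem cf_cycle {p : ℕ} (m : Fin p → A p)
    (hm : ∑ i, (m i * FreeAlgebra.ι ℤ i - FreeAlgebra.ι ℤ i * m i) = 0)
    (u u' : List (Fin p)) (i j : Fin p) (h : u ++ [j] = i :: u') : cf u (m j) = cf u' (m i) := by
  have h1 := congrArg (cf (u ++ [j])) hm
  rw [cf_zero, cf_sum] at h1
  have h2 : ∀ t, cf (u ++ [j]) (m t * FreeAlgebra.ι ℤ t - FreeAlgebra.ι ℤ t * m t) =
      (if t = j then cf u (m t) else 0) - (if t = i then cf u' (m t) else 0) := by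
    intro t
    rw [cf_sub, cf_right]
    congr 1
    rw [h, cf_left]
  simp only [h2] at h1
  rw [Finset.sum_sub_distrib] at h1
  simp at h1
  linarith

/-! ### the functional `Th` -/

theorem Th_zero {p : ℕ} (i : Fin p) : Th i (0 : A p) = 0 := by
  simp [Th]

theorem Th_add {p : ℕ} (i : Fin p) (a b : A p) : Th i (a + b) = Th i a + Th i b := by
  simp [Th, add_mul]

theorem Th_smul {p : ℕ} (i : Fin p) (c : ℤ) (a : A p) : Th i (c • a) = c * Th i a := by
  unfold Th
  rw [map_smul, smul_mul_assoc, AddMonoidAlgebra.coeff_smul, Finsupp.smul_apply, map_smul,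
    smul_eq_mul]

/-- the degree of a word -/
noncomputable def dg {p : ℕ} (u : List (Fin p)) : Fin p →₀ ℕ :=
  (u.map fun j => Finsupp.single j 1).sum

/-- the product of a word -/
noncomputable def gp {p : ℕ} (u : List (Fin p)) : Lam p := (u.map fun j => 1 + xi j).prod

theorem Gh_wd {p : ℕ} (u : List (Fin p)) :
    Gh p (wd u) = AddMonoidAlgebra.single (dg u) (gp u) := by
  induction u with
  | nil =>
    have : wd ([] : List (Fin p)) = 1 := rfl
    rw [this, map_one]
    rfl
  | cons i v ih =>
    have h1 : wd (i :: v) = FreeAlgebra.ι ℤ i * wd v := by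
      simp [wd]
    rw [h1, map_mul, ih]
    have h2 : Gh p (FreeAlgebra.ι ℤ i) =
        AddMonoidAlgebra.single (Finsupp.single i 1) (1 + xi i) := by
      simp [Gh]
    rw [h2, AddMonoidAlgebra.single_mul_single]
    simp [dg, gp]

open Classical in
theorem Th_wd {p : ℕ} (i : Fin p) (u : List (Fin p)) :
    Th i (wd u) = if dg u + Finsupp.single i 1 = Yd p then top p (gp u * xi i) else 0 := by
  unfold Th
  rw [Gh_wd, AddMonoidAlgebra.single_mul_single, AddMonoidAlgebra.coeff_single,
    Finsupp.single_apply]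
  split_ifs
  · rfl
  · simp

theorem dg_total {p : ℕ} (u : List (Fin p)) : ∑ j, dg u j = u.length := by
  induction u with
  | nil => simp [dg]
  | cons i v ih =>
    have h1 : dg (i :: v) = Finsupp.single i 1 + dg v := by simp [dg]
    rw [h1, List.length_cons, ← ih]
    simp only [Finsupp.add_apply, Finset.sum_add_distrib]
    rw [add_comm]
    congr 1
    simp [Finsupp.single_apply]

theorem Th_len {p : ℕ} (i : Fin p) (u : List (Fin p)) (h : u.length + 1 ≠ p * p) :
    Th i (wd u) = 0 := by
  rw [Th_wd, if_neg]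
  intro h1
  apply h
  rw [← dg_total]
  have h2 : ∑ j, (dg u + Finsupp.single i 1 : Fin p →₀ ℕ) j = ∑ j : Fin p, Yd p j := by rw [h1]
  simp only [Finsupp.add_apply, Finset.sum_add_distrib] at h2
  simp [Finsupp.single_apply, Yd] at h2
  exact h2

/-- `Th` as a sum over the words of the right length -/
theorem Th_eq_sum {p l : ℕ} (hl : l + 1 = p * p) (i : Fin p) (a : A p) :
    Th i a = ∑ u : Fin l → Fin p, cf (List.ofFn u) a * Th i (wd (List.ofFn u)) := by
  refine A_span (fun a => Th i a = ∑ u : Fin l → Fin p, cf (List.ofFn u) a *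
    Th i (wd (List.ofFn u))) ?_ ?_ ?_ ?_ a
  · simp [cf_zero, Th_zero]
  · intro g h hg hh
    rw [Th_add, hg, hh, ← Finset.sum_add_distrib]
    refine Finset.sum_congr rfl (fun u _ => ?_)
    rw [cf_add]
    ring
  · intro c g hg
    rw [Th_smul, hg, Finset.mul_sum]
    refine Finset.sum_congr rfl (fun u _ => ?_)
    rw [cf_smul]
    ring
  · intro v
    by_cases hv : v.length = l
    · subst hv
      rw [Finset.sum_eq_single (fun t : Fin v.length => v.get t)]
      · rw [List.ofFn_get, cf_wd, if_pos rfl, one_mul]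
      · intro u _ hu
        rw [cf_wd, if_neg, zero_mul]
        intro h
        apply hu
        apply List.ofFn_injective
        rw [← h, List.ofFn_get]
      · intro h
        exact absurd (Finset.mem_univ _) h
    · rw [Th_len i v (by omega)]
      symm
      refine Finset.sum_eq_zero (fun u _ => ?_)
      rw [cf_wd, if_neg, zero_mul]
      intro h
      apply hv
      rw [h, List.length_ofFn]

/-- the multidegree of the word `w` -/
theorem dg_init {p l : ℕ} (w : Fin (l + 1) → Fin p) :
    dg (List.ofFn (Fin.init w)) + Finsupp.single (w (Fin.last l)) 1 = Yd p ↔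
      ∀ i, (Finset.univ.filter fun t => w t = i).card = p := by
  have h1 : dg (List.ofFn (Fin.init w)) + Finsupp.single (w (Fin.last l)) 1 =
      ∑ t, Finsupp.single (w t) 1 := by
    rw [Fin.sum_univ_castSucc]
    congr 1
    unfold dg
    rw [List.map_ofFn, List.sum_ofFn]
    rfl
  have h2 : ∀ i, (∑ t, Finsupp.single (w t) 1 : Fin p →₀ ℕ) i =
      (Finset.univ.filter fun t => w t = i).card := by
    intro i
    rw [Finsupp.finsetSum_apply, Finset.card_filter]
    refine Finset.sum_congr rfl (fun t _ => ?_)
    rw [Finsupp.single_apply]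
  rw [h1]
  constructor
  · intro h i
    rw [← h2, h]
    rfl
  · intro h
    ext i
    rw [h2, h i]
    rfl

theorem H1_last {p l : ℕ} (w : Fin (l + 1) → Fin p) :
    H1 w (-1) = gp (List.ofFn (Fin.init w)) * xi (w (Fin.last l)) := by
  have h0 : (-1 : Fin (l + 1)) = Fin.last l :=
    (eq_neg_of_add_eq_zero_left (Fin.last_add_one l)).symm
  unfold H1 gp
  rw [h0, List.ofFn_succ', List.concat_eq_append, List.prod_append, List.prod_singleton,
    if_pos rfl, List.map_ofFn]
  congr 3
  funext s
  rw [if_neg (Fin.castSucc_lt_last s).ne]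
  rfl

theorem kl (h : KL1) : KL := by
  classical
  intro p hp hodd m hm
  obtain ⟨l, hl⟩ : ∃ l, l + 1 = p * p := by
    have := Nat.mul_pos hp.pos hp.pos
    exact ⟨p * p - 1, by omega⟩
  let c : (Fin (l + 1) → Fin p) → ℤ := fun w =>
    if ∀ i, (Finset.univ.filter fun t => w t = i).card = p then
      cf (List.ofFn (Fin.init w)) (m (w (Fin.last l))) else 0
  have hinit : ∀ w : Fin (l + 1) → Fin p, Fin.init (fun t => w (t + 1)) = Fin.tail w := by
    intro w
    funext t
    show w (t.castSucc + 1) = w t.succ
    rw [Fin.coeSucc_eq_succ]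
  have hlast : ∀ w : Fin (l + 1) → Fin p, w (Fin.last l + 1) = w 0 := by
    intro w
    rw [Fin.last_add_one]
  have hcond : ∀ (w : Fin (l + 1) → Fin p) (i : Fin p),
      (Finset.univ.filter fun t => w (t + 1) = i).card =
        (Finset.univ.filter fun t => w t = i).card := by
    intro w i
    refine Finset.card_bij (fun t _ => t + 1) ?_ ?_ ?_
    · intro t ht
      rw [Finset.mem_filter] at ht ⊢
      exact ⟨Finset.mem_univ _, ht.2⟩
    · intro a _ b _ hab
      exact add_right_cancel hab
    · intro b hb
      refine ⟨b - 1, ?_, sub_add_cancel b 1⟩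
      rw [Finset.mem_filter] at hb ⊢
      refine ⟨Finset.mem_univ _, ?_⟩
      rw [sub_add_cancel]
      exact hb.2
  have hrot : ∀ w, c (fun t => w (t + 1)) = c w := by
    intro w
    show (if ∀ i, (Finset.univ.filter fun t => w (t + 1) = i).card = p then
      cf (List.ofFn (Fin.init (fun t => w (t + 1)))) (m (w (Fin.last l + 1))) else 0) =
      if ∀ i, (Finset.univ.filter fun t => w t = i).card = p then
      cf (List.ofFn (Fin.init w)) (m (w (Fin.last l))) else 0
    simp only [hcond]
    by_cases hw : ∀ i, (Finset.univ.filter fun t => w t = i).card = p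
    · rw [if_pos hw, if_pos hw, hinit, hlast w]
      symm
      refine cf_cycle m hm _ _ _ _ ?_
      have e1 : List.ofFn w = w 0 :: List.ofFn (Fin.tail w) := List.ofFn_succ
      have e2 : List.ofFn w = List.ofFn (Fin.init w) ++ [w (Fin.last l)] := by
        rw [List.ofFn_succ', List.concat_eq_append]
        rfl
      rw [← e1, ← e2]
    · rw [if_neg hw, if_neg hw]
  have hne : ∀ w, c w ≠ 0 → ∀ i, (Finset.univ.filter fun t => w t = i).card = p := by
    intro w hw
    by_contra hno
    apply hw
    show (if ∀ i, (Finset.univ.filter fun t => w t = i).card = p then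
      cf (List.ofFn (Fin.init w)) (m (w (Fin.last l))) else 0) = 0
    rw [if_neg hno]
  have hmain := h p hp hodd (l + 1) hl c hrot (fun w hw i => by convert hne w hw i)
  have hsum : ∑ i, Th i (m i) = ∑ w : Fin (l + 1) → Fin p, c w * top p (H1 w (-1)) := by
    have e1 : ∑ i, Th i (m i) = ∑ q : Fin p × (Fin l → Fin p),
        cf (List.ofFn q.2) (m q.1) * Th q.1 (wd (List.ofFn q.2)) := by
      rw [Fintype.sum_prod_type]
      exact Finset.sum_congr rfl (fun i _ => Th_eq_sum hl i (m i))
    rw [e1, ← (Fin.snocEquiv (fun _ : Fin (l + 1) => Fin p)).symm.sum_comp]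
    refine Finset.sum_congr rfl (fun w _ => ?_)
    show cf (List.ofFn (Fin.init w)) (m (w (Fin.last l))) *
      Th (w (Fin.last l)) (wd (List.ofFn (Fin.init w))) = c w * top p (H1 w (-1))
    rw [Th_wd, H1_last]
    show _ = (if ∀ i, (Finset.univ.filter fun t => w t = i).card = p then
      cf (List.ofFn (Fin.init w)) (m (w (Fin.last l))) else 0) * _
    by_cases hw : ∀ i, (Finset.univ.filter fun t => w t = i).card = p
    · rw [if_pos ((dg_init w).mpr hw), if_pos hw]
    · rw [if_neg (fun h' => hw ((dg_init w).mp h')), if_neg hw]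
      simp
  rw [hsum]
  exact hmain

end N36.LC
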