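import Pool.Agent.N36.LC.Base

/-! `p` divides `top (G1 w)` if all letters occur a multiple of `p` times; `p ^ 2` divides
`top (G1 z ^ p)` if `z` is a permutation. -/

set_option autoImplicit false

namespace N36.LC

open ExteriorAlgebra

/-- the parity automorphism -/
noncomputable def al (p : ℕ) : Lam p →ₐ[ℤ] Lam p := ExteriorAlgebra.map (-LinearMap.id)

theorem al_io {p : ℕ} (v : Fin p → ℤ) : al p (ι ℤ v) = -ι ℤ v := by
  rw [al, map_apply_ι, LinearMap.neg_apply, LinearMap.id_apply, map_neg]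

theorem al_xi {p : ℕ} (i : Fin p) : al p (xi i) = -xi i := al_io _

theorem al_mon {p k : ℕ} {g : Lam p} (hg : IsMon k g) : al p g = (-1 : ℤ) ^ k • g := by
  obtain ⟨l, rfl, rfl⟩ := hg
  induction l with
  | nil => simp
  | cons a l ih =>
    simp only [List.map_cons, List.prod_cons, List.length_cons]
    rw [map_mul, ih, al_io, pow_succ, mul_neg_one, neg_smul, neg_mul, mul_smul_comm]

theorem al_al {p : ℕ} (g : Lam p) : al p (al p g) = g := by
  refine lam_span (fun g => al p (al p g) = g) (by simp) ?_ ?_ ?_ g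
  · intro g h h1 h2
    rw [map_add, map_add, h1, h2]
  · intro c g h1
    rw [map_smul, map_smul, h1]
  · intro k g hg
    rw [al_mon hg, map_smul, al_mon hg, smul_smul, ← mul_pow]
    simp

theorem top_al {p : ℕ} (hp : Odd p) (g : Lam p) : top p (al p g) = - top p g := by
  refine lam_span (fun g => top p (al p g) = - top p g) (by simp) ?_ ?_ ?_ g
  · intro g h h1 h2
    rw [map_add, map_add, map_add, h1, h2]
    ring
  · intro c g h1
    rw [map_smul, map_smul, map_smul, h1, smul_neg]
  · intro k g hg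
    rw [al_mon hg, map_smul]
    by_cases hk : k = p
    · rw [hk, hp.neg_one_pow]
      simp
    · rw [hg.top_eq_zero hk]
      simp

theorem io_mul {p : ℕ} (v : Fin p → ℤ) (g : Lam p) : ι ℤ v * g = al p g * ι ℤ v := by
  refine lam_span (fun g => ι ℤ v * g = al p g * ι ℤ v) (by simp) ?_ ?_ ?_ g
  · intro g h h1 h2
    rw [map_add, mul_add, add_mul, h1, h2]
  · intro c g h1
    rw [map_smul, mul_smul_comm, smul_mul_assoc, h1]
  · intro k g hg
    rw [al_mon hg, io_mul_mon v hg, smul_mul_assoc]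

theorem G1_zero {p : ℕ} (w : Fin 0 → Fin p) : G1 w = 1 := by
  simp [G1]

theorem G1_succ {p n : ℕ} (w : Fin (n + 1) → Fin p) :
    G1 w = (1 + xi (w 0)) * G1 (fun i => w i.succ) := by
  rw [G1, List.ofFn_succ, List.prod_cons]
  rfl

/-- the sum of the `ξ` of the letters, as a vector -/
def dv {p n : ℕ} (w : Fin n → Fin p) : Fin p → ℤ := ∑ s, Pi.single (w s) 1

theorem dv_succ {p n : ℕ} (w : Fin (n + 1) → Fin p) :
    dv w = Pi.single (w 0) 1 + dv (fun i => w i.succ) := by
  rw [dv, Fin.sum_univ_succ]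
  rfl

theorem G1_odd {p n : ℕ} (w : Fin n → Fin p) :
    G1 w - al p (G1 w) = ι ℤ (dv w) * (G1 w + al p (G1 w)) := by
  induction n with
  | zero =>
    rw [G1_zero]
    simp [dv]
  | succ n ih =>
    have h := ih (fun i => w i.succ)
    rw [G1_succ, map_mul, map_add, map_one, al_xi, dv_succ, map_add]
    set g := G1 (fun i => w i.succ)
    set a := al p g
    set d : Lam p := ι ℤ (dv fun i => w i.succ)
    have e1 : (ι ℤ (Pi.single (w 0) 1 : Fin p → ℤ) : Lam p) = xi (w 0) := rfl
    rw [e1]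
    set x : Lam p := xi (w 0)
    have hxx : x * x = 0 := ι_sq_zero _
    have hdd : d * d = 0 := ι_sq_zero _
    have hdx : d * x = - (x * d) := eq_neg_of_add_eq_zero_left (ι_add_mul_swap _ _)
    have hg : g = a + d * (g + a) := by rw [← h]; noncomm_ring
    have h3 : d * (x * (g - a)) = 0 := by
      rw [h, ← mul_assoc, ← mul_assoc, hdx]
      rw [neg_mul, mul_assoc x d d, hdd]
      simp
    have h4 : x * (x * (g - a)) = 0 := by rw [← mul_assoc, hxx, zero_mul]
    calc (1 + x) * g - (1 + -x) * a = (g - a) + x * (g + a) := by noncomm_ring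
      _ = d * (g + a) + x * (g + a) := by rw [h]
      _ = (x + d) * ((g + a) + x * (g - a)) := by
        rw [add_mul, mul_add x (g + a), mul_add d (g + a), h3, h4]
        abel
      _ = _ := by
        congr 1
        noncomm_ring

theorem dv_apply {p n : ℕ} (w : Fin n → Fin p) (i : Fin p) :
    dv w i = (Finset.univ.filter fun t => w t = i).card := by
  rw [dv, Finset.sum_apply, Finset.card_filter]
  push_cast
  apply Finset.sum_congr rfl
  intro s _
  rw [Pi.single_apply]
  by_cases h : w s = i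
  · simp [h]
  · simp [h, Ne.symm h]

theorem dvd_of_two_pow {p : ℕ} (hp : Odd p) (k l : ℕ) (x : ℤ) (h : (p : ℤ) ^ k ∣ 2 ^ l * x) :
    (p : ℤ) ^ k ∣ x := by
  have hc : IsCoprime (p : ℤ) 2 := by
    rw [Int.isCoprime_iff_gcd_eq_one]
    have : Nat.Coprime p 2 := Nat.coprime_two_right.2 hp
    simpa [Int.gcd] using this
  exact (IsCoprime.pow hc).dvd_of_dvd_mul_left h

theorem tau2 : Tau2 := by
  intro p n w hp hw
  have h := congrArg (top p) (G1_odd w)
  rw [map_sub, top_al hp] at h
  have h2 : ∃ u : Fin p → ℤ, dv w = (p : ℤ) • u := by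
    have : ∀ i, ∃ c : ℤ, dv w i = p * c := by
      intro i
      rw [dv_apply]
      obtain ⟨c, hc⟩ := hw i
      exact ⟨c, by rw [hc]; push_cast; ring⟩
    choose u hu using this
    exact ⟨u, funext fun i => by rw [hu]; simp⟩
  obtain ⟨u, hu⟩ := h2
  rw [hu, map_smul, smul_mul_assoc, map_smul] at h
  have h3 : (p : ℤ) ^ 1 ∣ 2 ^ 1 * top p (G1 w) := by
    refine ⟨top p (ι ℤ u * (G1 w + al p (G1 w))), ?_⟩
    rw [smul_eq_mul] at h
    rw [pow_one, pow_one, ← h]
    ring
  simpa using dvd_of_two_pow hp 1 1 _ h3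

/-- elements of degree at least `k` -/
def Fil (p k : ℕ) : Submodule ℤ (Lam p) := Submodule.span ℤ {g | ∃ j, k ≤ j ∧ IsMon j g}

theorem Fil.mul_mem {p k l : ℕ} {g h : Lam p} (hg : g ∈ Fil p k) (hh : h ∈ Fil p l) :
    g * h ∈ Fil p (k + l) := by
  have : Fil p k * Fil p l ≤ Fil p (k + l) := by
    rw [Fil, Fil, Submodule.span_mul_span]
    apply Submodule.span_mono
    rintro _ ⟨x, ⟨i, hi, hi'⟩, y, ⟨j, hj, hj'⟩, rfl⟩
    exact ⟨i + j, by omega, hi'.mul hj'⟩
  exact this (Submodule.mul_mem_mul hg hh)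

theorem Fil.zero_eq (p : ℕ) (g : Lam p) : g ∈ Fil p 0 := by
  refine lam_span (fun g => g ∈ Fil p 0) (zero_mem _) (fun g h => add_mem)
    (fun c g => (Fil p 0).smul_mem c) ?_ g
  intro k g hg
  exact Submodule.subset_span ⟨k, Nat.zero_le _, hg⟩

theorem Fil.pow_mem {p : ℕ} {g : Lam p} (hg : g ∈ Fil p 1) (n : ℕ) : g ^ n ∈ Fil p n := by
  induction n with
  | zero => exact Fil.zero_eq p _
  | succ n ih =>
    rw [pow_succ]
    exact Fil.mul_mem ih hg

theorem Fil.top_eq_zero {p k : ℕ} (hk : p < k) {g : Lam p} (hg : g ∈ Fil p k) : top p g = 0 := by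
  refine Submodule.span_induction (p := fun g _ => top p g = 0) ?_ (map_zero _) ?_ ?_ hg
  · rintro x ⟨j, hj, hx⟩
    exact hx.top_eq_zero (by omega)
  · intro x y _ _ hx hy
    rw [map_add, hx, hy, add_zero]
  · intro c x _ hx
    rw [map_smul, hx, smul_zero]

theorem G1_fil {p n : ℕ} (w : Fin n → Fin p) : G1 w - 1 ∈ Fil p 1 := by
  induction n with
  | zero =>
    rw [G1_zero, sub_self]
    exact zero_mem _
  | succ n ih =>
    rw [G1_succ]
    have : (1 + xi (w 0)) * G1 (fun i => w i.succ) - 1 =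
        (G1 (fun i => w i.succ) - 1) + xi (w 0) * G1 (fun i => w i.succ) := by noncomm_ring
    rw [this]
    refine add_mem (ih _) ?_
    have h1 : (xi (w 0) : Lam p) ∈ Fil p 1 := Submodule.subset_span ⟨1, le_rfl, IsMon.xi _⟩
    have h2 := Fil.mul_mem (k := 1) (l := 0) h1 (Fil.zero_eq p (G1 fun i => w i.succ))
    rwa [Nat.add_zero] at h2

theorem al_fil {p k : ℕ} {g : Lam p} (hg : g ∈ Fil p k) : al p g ∈ Fil p k := by
  refine Submodule.span_induction (p := fun g _ => al p g ∈ Fil p k) ?_ ?_ ?_ ?_ hg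
  · rintro x ⟨j, hj, hx⟩
    rw [al_mon hx]
    exact (Fil p k).smul_mem _ (Submodule.subset_span ⟨j, hj, hx⟩)
  · rw [map_zero]; exact zero_mem _
  · intro x y _ _ hx hy
    rw [map_add]; exact add_mem hx hy
  · intro c x _ hx
    rw [map_smul]; exact (Fil p k).smul_mem _ hx

theorem one_add_pow {R : Type} [Ring R] (d : R) (hd : d * d = 0) (n : ℕ) :
    (1 + d) ^ n = 1 + (n : ℤ) • d := by
  induction n with
  | zero => simp
  | succ n ih =>
    rw [pow_succ, ih]
    have : (1 + (n : ℤ) • d) * (1 + d) = 1 + (n : ℤ) • d + d + (n : ℤ) • (d * d) := by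
      rw [add_mul, one_mul, smul_mul_assoc, mul_add, mul_one, smul_add]
      abel
    rw [this, hd]
    push_cast
    module

theorem tau3 : Tau3 := by
  intro p hpp hp z hz
  have hd1 : ∀ i, dv z i = 1 := by
    intro i
    rw [dv_apply]
    obtain ⟨t, ht⟩ := hz.2 i
    have : (Finset.univ.filter fun s => z s = i) = {t} := by
      ext s
      simp only [Finset.mem_filter, Finset.mem_univ, true_and, Finset.mem_singleton]
      exact ⟨fun h => hz.1 (h.trans ht.symm), fun h => h ▸ ht⟩
    rw [this]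
    simp
  set g := G1 z
  set s := g + al p g with hs
  set d : Lam p := ι ℤ (dv z)
  have hals : al p s = s := by
    rw [hs, map_add, al_al, add_comm]
  have hsd : d * s = s * d := by
    rw [io_mul, hals]
  have hdd : d * d = 0 := ι_sq_zero _
  have h2g : (2 : ℤ) • g = (1 + d) * s := by
    have := G1_odd z
    rw [add_mul, one_mul]
    have h3 : (2 : ℤ) • g = (g + al p g) + (g - al p g) := by module
    rw [h3, this]
  have hcom : Commute (1 + d) s := by
    exact (Commute.one_left s).add_left hsd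
  have hpow : (2 : ℤ) ^ p • g ^ p = s ^ p + (p : ℤ) • (d * s ^ p) := by
    rw [← smul_pow, h2g, hcom.mul_pow, one_add_pow d hdd, add_mul, one_mul, smul_mul_assoc]
  have htop : (2 : ℤ) ^ p * top p (g ^ p) = p * top p (d * s ^ p) := by
    have h3 : top p (s ^ p) = 0 := by
      have := top_al hp (s ^ p)
      rw [map_pow, hals] at this
      omega
    have := congrArg (top p) hpow
    rw [map_smul, map_add, map_smul, h3, zero_add, smul_eq_mul, smul_eq_mul] at this
    exact this
  -- the power of `s`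
  set n := s - 2 with hn
  have hnf : n ∈ Fil p 1 := by
    have : n = (g - 1) + al p (g - 1) := by
      rw [hn, hs, map_sub, map_one, ← one_add_one_eq_two]
      abel
    rw [this]
    exact add_mem (G1_fil z) (al_fil (G1_fil z))
  have hdf : d ∈ Fil p 1 := Submodule.subset_span ⟨1, le_rfl, IsMon.io _⟩
  have hs2 : s = 2 + n := by rw [hn]; abel
  obtain ⟨r, hr⟩ := (Commute.ofNat_left 2 n).exists_add_pow_prime_eq hpp
  have hdiv : (p : ℤ) ∣ top p (d * s ^ p) := by
    rw [hs2]
    have hr' : (2 + n) ^ p = 2 ^ p + n ^ p + (p : ℤ) • (2 * n * r) := by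
      have : (2 + n) ^ p = (OfNat.ofNat 2 + n) ^ p := rfl
      rw [this, hr]
      have h5 : (p : Lam p) * OfNat.ofNat 2 * n * r = (p : ℤ) • ((2 : Lam p) * n * r) := by
        rw [zsmul_eq_mul]
        push_cast
        simp only [mul_assoc]
        try rfl
      rw [h5]
    rw [hr', mul_add, mul_add, map_add, map_add, mul_smul_comm, map_smul]
    have h6 : top p (d * 2 ^ p) = 0 := by
      have h7 : d * 2 ^ p = (2 : ℤ) ^ p • d := by
        rw [zsmul_eq_mul]
        push_cast
        exact (Commute.ofNat_right d 2).pow_right p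
      rw [h7, map_smul, (IsMon.io (dv z)).top_eq_zero (by
        intro h
        exact hpp.one_lt.ne h)]
      simp
    have h8 : top p (d * n ^ p) = 0 :=
      Fil.top_eq_zero (k := 1 + p) (by omega) (Fil.mul_mem hdf (Fil.pow_mem hnf p))
    rw [h6, h8, zero_add, zero_add]
    exact Dvd.intro _ rfl
  obtain ⟨c, hc⟩ := hdiv
  apply dvd_of_two_pow hp 2 p
  rw [htop, hc]
  exact ⟨c, by ring⟩

end N36.LC
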