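import Pool.Agent.N36.LC.Base

/-! `top` is a trace for odd `p`, commutators are central. -/

set_option autoImplicit false

namespace N36.LC

open ExteriorAlgebra

theorem trace : Trace := by
  intro p hp g h
  refine lam_span (fun g => top p (g * h) = top p (h * g)) (by simp) ?_ ?_ ?_ g
  · intro g g' h1 h2
    rw [add_mul, mul_add, map_add, map_add, h1, h2]
  · intro c g h1
    rw [smul_mul_assoc, mul_smul_comm, map_smul, map_smul, h1]
  intro k g hg
  refine lam_span (fun h => top p (g * h) = top p (h * g)) (by simp) ?_ ?_ ?_ h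
  · intro g' g'' h1 h2
    rw [add_mul, mul_add, map_add, map_add, h1, h2]
  · intro c g' h1
    rw [smul_mul_assoc, mul_smul_comm, map_smul, map_smul, h1]
  intro l h hh
  by_cases hkl : k + l = p
  · have : Even (k * l) := by
      rw [← hkl] at hp
      rcases Nat.even_or_odd k with hk | hk
      · exact hk.mul_right l
      · rcases Nat.even_or_odd l with hl | hl
        · exact hl.mul_left k
        · exact absurd hp (Nat.not_odd_iff_even.2 (hk.add_odd hl))
    rw [mon_mul_mon hg hh, this.neg_one_pow, one_smul]
  · rw [(hg.mul hh).top_eq_zero hkl, (hh.mul hg).top_eq_zero (by omega)]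

theorem central : Central := by
  intro p g h k
  refine lam_span (fun g => (g * h - h * g) * k = k * (g * h - h * g)) (by simp) ?_ ?_ ?_ g
  · intro g g' h1 h2
    have : (g + g') * h - h * (g + g') = (g * h - h * g) + (g' * h - h * g') := by noncomm_ring
    rw [this, add_mul, mul_add, h1, h2]
  · intro c g h1
    have : (c • g) * h - h * (c • g) = c • (g * h - h * g) := by
      rw [smul_mul_assoc, mul_smul_comm, smul_sub]
    rw [this, smul_mul_assoc, mul_smul_comm, h1]
  intro a g hg
  refine lam_span (fun h => (g * h - h * g) * k = k * (g * h - h * g)) (by simp) ?_ ?_ ?_ h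
  · intro h h' h1 h2
    have : g * (h + h') - (h + h') * g = (g * h - h * g) + (g * h' - h' * g) := by noncomm_ring
    rw [this, add_mul, mul_add, h1, h2]
  · intro c h h1
    have : g * (c • h) - (c • h) * g = c • (g * h - h * g) := by
      rw [smul_mul_assoc, mul_smul_comm, smul_sub]
    rw [this, smul_mul_assoc, mul_smul_comm, h1]
  intro b h hh
  refine lam_span (fun k => (g * h - h * g) * k = k * (g * h - h * g)) (by simp) ?_ ?_ ?_ k
  · intro k k' h1 h2
    rw [mul_add, add_mul, h1, h2]
  · intro c k h1
    rw [mul_smul_comm, smul_mul_assoc, h1]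
  intro c k hk
  have e1 := mon_mul_mon hg hh
  by_cases hab : Even (a * b)
  · rw [hab.neg_one_pow, one_smul] at e1
    rw [e1, sub_self, zero_mul, mul_zero]
  · have ho : Odd (a * b) := Nat.not_even_iff_odd.1 hab
    rw [Nat.odd_mul] at ho
    have hev : Even ((b + a) * c) := (ho.2.add_odd ho.1).mul_right c
    have e2 := mon_mul_mon (hh.mul hg) hk
    rw [hev.neg_one_pow, one_smul] at e2
    have : g * h - h * g = (-2 : ℤ) • (h * g) := by
      rw [e1, (Nat.not_even_iff_odd.1 hab).neg_one_pow]
      module
    rw [this, smul_mul_assoc, mul_smul_comm, e2]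

end N36.LC
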