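import Pool.Agent.N36.LC.Alg4
import Pool.Agent.N36.LC.Tau
import Pool.Agent.N36.LC.Tr
import Pool.Agent.N36.LC.KL

/-! The value of the functional on `T_new`. -/

set_option autoImplicit false

namespace N36.LC

open ExteriorAlgebra

/-- the numbering of the variables: `a_0, b_0, a_1, b_1, …, x` -/
def eqv (m : ℕ) : Option (Fin m × Bool) ≃ Fin (m * 2 + 1) :=
  (finSuccEquivLast.trans (Equiv.optionCongr (finProdFinEquiv.symm.trans
    (Equiv.prodCongr (Equiv.refl _) finTwoEquiv)))).symm

theorem eqv_none (m : ℕ) : eqv m none = Fin.last (m * 2) := by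
  rw [eqv, Equiv.symm_apply_eq]
  simp

theorem eqv_some (m : ℕ) (j : Fin m) (c : Bool) : eqv m (some (j, c)) =
    Fin.castSucc (finProdFinEquiv (j, finTwoEquiv.symm c)) := by
  rw [eqv, Equiv.symm_apply_eq, Equiv.trans_apply, finSuccEquivLast_castSucc,
    Equiv.optionCongr_apply, Option.map_some, Equiv.trans_apply, Equiv.symm_apply_apply,
    Equiv.prodCongr_apply, Prod.map_apply, Equiv.refl_apply, Equiv.apply_symm_apply]

section pairs

variable {m : ℕ}

/-- `ξ_a ξ_b`, in the centre -/
noncomputable def xc (j : Fin m) : Subring.center (Lam (m * 2 + 1)) :=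
  ⟨xi (eqv m (some (j, false))) * xi (eqv m (some (j, true))), by
    rw [Subring.mem_center_iff]
    intro g
    refine lam_span (fun g => g * _ = _ * g) (by simp) ?_ ?_ ?_ g
    · intro g g' h1 h2
      rw [add_mul, mul_add, h1, h2]
    · intro c g h1
      rw [smul_mul_assoc, mul_smul_comm, h1]
    · intro k g hg
      have h := mon_mul_mon hg ((IsMon.xi (eqv m (some (j, false)))).mul
        (IsMon.xi (eqv m (some (j, true)))))
      have he : Even (k * (1 + 1)) := ⟨k, by ring⟩
      rw [he.neg_one_pow, one_smul] at h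
      exact h⟩

/-- product over `S` -/
noncomputable def xp (S : Finset (Fin m)) : Lam (m * 2 + 1) :=
  ((∏ l ∈ S, xc l : Subring.center (Lam (m * 2 + 1))) : Lam (m * 2 + 1))

theorem xp_cen (S : Finset (Fin m)) (g : Lam (m * 2 + 1)) : g * xp S = xp S * g :=
  (Subring.mem_center_iff.1 (∏ l ∈ S, xc l : Subring.center (Lam (m * 2 + 1))).2) g

theorem xp_erase (j : Fin m) : xp (Finset.univ : Finset (Fin m)) =
    xi (eqv m (some (j, false))) * xi (eqv m (some (j, true))) * xp (Finset.univ.erase j) := by
  rw [xp, ← Finset.mul_prod_erase _ _ (Finset.mem_univ j)]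
  rfl

theorem xp_mon (S : Finset (Fin m)) : IsMon (2 * S.card) (xp S) := by
  classical
  induction S using Finset.induction_on with
  | empty =>
    rw [xp, Finset.prod_empty]
    exact IsMon.one
  | insert j S hj ih =>
    have h1 : xp (insert j S) = xi (eqv m (some (j, false))) * xi (eqv m (some (j, true))) *
        xp S := by
      rw [xp, Finset.prod_insert hj]
      rfl
    have h2 : 2 * (insert j S).card = 1 + 1 + 2 * S.card := by
      rw [Finset.card_insert_of_notMem hj]
      ring
    rw [h1, h2]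
    exact ((IsMon.xi _).mul (IsMon.xi _)).mul ih

theorem top_main : top (m * 2 + 1) (xp (Finset.univ : Finset (Fin m)) * xi (eqv m none)) = 1 := by
  have h1 : xp (Finset.univ : Finset (Fin m)) = (List.ofFn fun i : Fin (m * 2) =>
      (xi (Fin.castSucc i) : Lam (m * 2 + 1))).prod := by
    rw [List.ofFn_mul, List.prod_flatten, List.map_ofFn, xp]
    have h2 : ((∏ l, xc l : Subring.center (Lam (m * 2 + 1))) : Lam (m * 2 + 1)) =
        (Subring.center (Lam (m * 2 + 1))).subtype (∏ l, xc l) := rfl
    rw [h2, ← List.prod_ofFn, map_list_prod, List.map_ofFn]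
    congr 2
    funext l
    simp only [Function.comp_apply, List.ofFn_succ, List.ofFn_zero, List.prod_cons, List.prod_nil,
      mul_one]
    show xi (eqv m (some (l, false))) * xi (eqv m (some (l, true))) = _
    rw [eqv_some, eqv_some]
    congr 2
    · apply congrArg
      ext
      simp [finProdFinEquiv, finTwoEquiv, mul_comm]
    · apply congrArg
      ext
      simp [finProdFinEquiv, finTwoEquiv, mul_comm, add_comm]
  rw [h1, eqv_none]
  have h3 := topProd.1 (m * 2 + 1) fun i => Pi.single i 1
  rw [List.ofFn_succ', List.concat_eq_append, List.prod_append, List.prod_singleton] at h3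
  have h4 : Matrix.det (fun i : Fin (m * 2 + 1) => (Pi.single i 1 : Fin (m * 2 + 1) → ℤ)) = 1 := by
    refine Eq.trans ?_ (Matrix.det_one (n := Fin (m * 2 + 1)) (R := ℤ))
    congr 1
    ext i j
    rw [Matrix.one_apply, Pi.single_apply]
    congr 1
    exact propext eq_comm
  rw [h4] at h3
  exact h3

/-- the sum of all unit vectors -/
noncomputable def one (p : ℕ) : Fin p →₀ ℕ := ∑ k, Finsupp.single k 1

theorem Yd_eq (p : ℕ) : Yd p = p • one p := by
  ext i
  simp [Yd, one, Finsupp.single_apply]

theorem Gh_ι {p : ℕ} (i : Fin p) : Gh p (FreeAlgebra.ι ℤ i) =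
    AddMonoidAlgebra.single (Finsupp.single i 1) (1 + xi i) := by
  simp [Gh]

theorem Gh_br {p : ℕ} (a b : Fin p) : Gh p (br (FreeAlgebra.ι ℤ a) (FreeAlgebra.ι ℤ b)) =
    AddMonoidAlgebra.single (Finsupp.single a 1 + Finsupp.single b 1)
      ((2 : ℤ) • (xi a * xi b)) := by
  rw [br, map_sub, map_mul, map_mul, Gh_ι, Gh_ι, AddMonoidAlgebra.single_mul_single,
    AddMonoidAlgebra.single_mul_single, add_comm (Finsupp.single b 1), ← AddMonoidAlgebra.single_sub]
  congr 1
  have h : (xi b * xi a : Lam p) = - (xi a * xi b) := eq_neg_of_add_eq_zero_left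
    (ι_add_mul_swap _ _)
  have h2 : (1 + xi a) * (1 + xi b) - (1 + xi b) * (1 + xi a) = (xi a * xi b - xi b * xi a : Lam p) := by
    noncomm_ring
  rw [h2, h]
  module

theorem Gh_Mt (p t : ℕ) : ∃ U : Lam p, Gh p (Mt (Fin p) t) =
    AddMonoidAlgebra.single ((t + 1) • one p) U ∧ U - 1 ∈ Fil p 1 := by
  have key : ∀ l : List (Fin p), ∃ U : Lam p,
      Gh p (l.map fun k => FreeAlgebra.ι ℤ k ^ (t + 1)).prod =
        AddMonoidAlgebra.single (l.map fun k => (t + 1) • Finsupp.single k 1).sum U ∧
        U - 1 ∈ Fil p 1 := by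
    intro l
    induction l with
    | nil =>
      refine ⟨1, ?_, ?_⟩
      · rw [List.map_nil, List.prod_nil, map_one]
        rfl
      · rw [sub_self]
        exact zero_mem _
    | cons k l ih =>
      obtain ⟨U, h1, h2⟩ := ih
      have h3 : ∀ n : ℕ, (1 + xi k) ^ n - 1 ∈ Fil p 1 := by
        intro n
        rw [one_add_pow (xi k) (ι_sq_zero _), add_sub_cancel_left]
        exact (Fil p 1).smul_mem _ (Submodule.subset_span ⟨1, le_rfl, IsMon.xi _⟩)
      refine ⟨(1 + xi k) ^ (t + 1) * U, ?_, ?_⟩
      · rw [List.map_cons, List.prod_cons, map_mul, h1, map_pow, Gh_ι, AddMonoidAlgebra.single_pow,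
          AddMonoidAlgebra.single_mul_single, List.map_cons, List.sum_cons]
      · have h4 : (1 + xi k) ^ (t + 1) * U - 1 = ((1 + xi k) ^ (t + 1) - 1) * U + (U - 1) := by
          noncomm_ring
        rw [h4]
        refine add_mem ?_ h2
        have := Fil.mul_mem (k := 1) (l := 0) (h3 (t + 1)) (Fil.zero_eq p U)
        rwa [Nat.add_zero] at this
  obtain ⟨U, h1, h2⟩ := key (Finset.univ : Finset (Fin p)).toList
  refine ⟨U, ?_, h2⟩
  rw [Mt, h1]
  congr 1
  rw [Finset.sum_map_toList, one, Finset.smul_sum]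

/-- the degree of `kt` -/
noncomputable def dS (S : Finset (Fin m)) : Fin (m * 2 + 1) →₀ ℕ :=
  ∑ l ∈ S, (Finsupp.single (eqv m (some (l, false))) 1 + Finsupp.single (eqv m (some (l, true))) 1)

theorem Gh_kt (S : Finset (Fin m)) : Gh (m * 2 + 1) (kt (eqv m) S) =
    AddMonoidAlgebra.single (dS S) ((2 : ℤ) ^ S.card • xp S) := by
  have key : ∀ l : List (Fin m), Gh (m * 2 + 1) (l.map (Dat.ct (eqv m))).prod =
      AddMonoidAlgebra.single (l.map fun l => (Finsupp.single (eqv m (some (l, false))) 1 +
        Finsupp.single (eqv m (some (l, true))) 1)).sum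
        ((2 : ℤ) ^ l.length • (l.map fun l => (xc l : Lam (m * 2 + 1))).prod) := by
    intro l
    induction l with
    | nil =>
      rw [List.map_nil, List.prod_nil, map_one, List.length_nil, pow_zero, one_smul]
      rfl
    | cons k l ih =>
      rw [List.map_cons, List.prod_cons, map_mul, ih, Dat.ct, Gh_br,
        AddMonoidAlgebra.single_mul_single, List.map_cons, List.sum_cons, List.map_cons,
        List.prod_cons, List.length_cons, smul_mul_assoc, mul_smul_comm, smul_smul, pow_succ,
        mul_comm ((2 : ℤ) ^ _) 2]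
      rfl
  rw [kt, key, Finset.sum_map_toList, Finset.length_toList, dS]
  congr 2
  have h2 : xp S = (Subring.center (Lam (m * 2 + 1))).subtype (∏ l ∈ S, xc l) := rfl
  rw [h2, ← Finset.prod_map_toList, map_list_prod, List.map_map]
  rfl

theorem Th_eval {p : ℕ} {i : Fin p} {a : A p} {d : Fin p →₀ ℕ} {g : Lam p}
    (h : Gh p a = AddMonoidAlgebra.single d g) (hd : d + Finsupp.single i 1 = Yd p) :
    Th i a = top p (g * xi i) := by
  rw [Th, h, AddMonoidAlgebra.single_mul_single, hd, AddMonoidAlgebra.coeff_single,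
    Finsupp.single_eq_same]

theorem top_U {p : ℕ} {U g : Lam p} (hU : U - 1 ∈ Fil p 1) (hg : IsMon p g) :
    top p (U * g) = top p g := by
  have h : U * g = (U - 1) * g + g := by noncomm_ring
  rw [h, map_add, Fil.top_eq_zero (k := 1 + p) (by omega)
    (Fil.mul_mem hU (Submodule.subset_span ⟨p, le_rfl, hg⟩)), zero_add]

theorem one_eq : one (m * 2 + 1) = Finsupp.single (eqv m none) 1 + dS (Finset.univ) := by
  rw [one, Dat.sum_vars (eqv m), dS]

theorem dS_erase (j : Fin m) : dS (Finset.univ : Finset (Fin m)) =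
    Finsupp.single (eqv m (some (j, false))) 1 + Finsupp.single (eqv m (some (j, true))) 1 +
      dS (Finset.univ.erase j) := by
  rw [dS, ← Finset.add_sum_erase _ _ (Finset.mem_univ j), dS]

theorem val (t : ℕ) (ht : t + 2 = m * 2 + 1) :
    ∑ k, Th k (mn (eqv m) t k) = ((m * 2 + 1 : ℕ) : ℤ) * 2 ^ m := by
  obtain ⟨U, hU, hU1⟩ := Gh_Mt (m * 2 + 1) t
  have hY : Yd (m * 2 + 1) = (t + 1) • one (m * 2 + 1) + one (m * 2 + 1) := by
    rw [Yd_eq, ← ht, add_smul, add_smul, two_smul, one_smul]
    abel
  have h0 : Th (eqv m none) (mn (eqv m) t (eqv m none)) = 2 ^ m := by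
    have h1 : Gh (m * 2 + 1) (mn (eqv m) t (eqv m none)) = AddMonoidAlgebra.single
        ((t + 1) • one (m * 2 + 1) + dS Finset.univ) (U * ((2 : ℤ) ^ m • xp Finset.univ)) := by
      rw [mn, (eqv m).symm_apply_apply]
      simp only []
      rw [map_mul, hU, Gh_kt, AddMonoidAlgebra.single_mul_single, Finset.card_univ,
        Fintype.card_fin]
    rw [Th_eval h1 (by rw [hY, one_eq]; abel), mul_smul_comm, smul_mul_assoc, map_smul, mul_assoc,
      top_U hU1, top_main, smul_eq_mul, mul_one]
    have := (xp_mon (Finset.univ : Finset (Fin m))).mul (IsMon.xi (eqv m none))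
    rw [Finset.card_univ, Fintype.card_fin, mul_comm 2 m] at this
    exact this
  have hcard : ∀ j : Fin m, (2 : ℤ) * 2 ^ (Finset.univ.erase j).card = 2 ^ m := by
    intro j
    rw [Finset.card_erase_of_mem (Finset.mem_univ j), Finset.card_univ, Fintype.card_fin,
      ← pow_succ', Nat.sub_add_cancel (by have := j.2; omega)]
  have hanti : ∀ a b : Fin (m * 2 + 1), (xi a * xi b : Lam (m * 2 + 1)) = - (xi b * xi a) :=
    fun a b => eq_neg_of_add_eq_zero_left (ι_add_mul_swap _ _)
  have hmon : ∀ (j : Fin m) (a b : Fin (m * 2 + 1)), IsMon (m * 2 + 1)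
      (xi (eqv m none) * xi a * xp (Finset.univ.erase j) * xi b) := by
    intro j a b
    have := (((IsMon.xi (eqv m none)).mul (IsMon.xi a)).mul (xp_mon (Finset.univ.erase j))).mul
      (IsMon.xi b)
    rw [Finset.card_erase_of_mem (Finset.mem_univ j), Finset.card_univ, Fintype.card_fin] at this
    have e : 1 + 1 + 2 * (m - 1) + 1 = m * 2 + 1 := by have := j.2; omega
    rw [e] at this
    exact this
  have hee : ∀ j : Fin m, xi (eqv m none) * xi (eqv m (some (j, false))) *
      xp (Finset.univ.erase j) * xi (eqv m (some (j, true))) =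
        xp Finset.univ * xi (eqv m none) := by
    intro j
    rw [mul_assoc, ← xp_cen, ← xp_cen Finset.univ, xp_erase j]
    simp only [mul_assoc]
  have hee' : ∀ j : Fin m, xi (eqv m none) * xi (eqv m (some (j, true))) *
      xp (Finset.univ.erase j) * xi (eqv m (some (j, false))) =
        -(xp Finset.univ * xi (eqv m none)) := by
    intro j
    rw [mul_assoc, ← xp_cen, ← xp_cen Finset.univ, xp_erase j, hanti (eqv m (some (j, false)))]
    simp only [mul_assoc, neg_mul, mul_neg, neg_neg]
  have hb : ∀ j, Th (eqv m (some (j, true))) (mn (eqv m) t (eqv m (some (j, true)))) = 2 ^ m := by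
    intro j
    have h1 : Gh (m * 2 + 1) (mn (eqv m) t (eqv m (some (j, true)))) = AddMonoidAlgebra.single
        ((t + 1) • one (m * 2 + 1) + ((Finsupp.single (eqv m none) 1 +
          Finsupp.single (eqv m (some (j, false))) 1) + dS (Finset.univ.erase j)))
        (U * (((2 : ℤ) • (xi (eqv m none) * xi (eqv m (some (j, false))))) *
          ((2 : ℤ) ^ (Finset.univ.erase j).card • xp (Finset.univ.erase j)))) := by
      rw [mn, (eqv m).symm_apply_apply]
      simp only []
      rw [map_mul, map_mul, hU, Gh_kt, Gh_br, AddMonoidAlgebra.single_mul_single,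
        AddMonoidAlgebra.single_mul_single]
    rw [Th_eval h1 (by rw [hY, one_eq, dS_erase j]; abel), smul_mul_smul_comm, hcard,
      mul_smul_comm, smul_mul_assoc, map_smul, mul_assoc U, top_U hU1 (hmon j _ _), hee j,
      top_main, smul_eq_mul, mul_one]
  have ha : ∀ j, Th (eqv m (some (j, false))) (mn (eqv m) t (eqv m (some (j, false)))) =
      2 ^ m := by
    intro j
    have h1 : Gh (m * 2 + 1) (mn (eqv m) t (eqv m (some (j, false)))) = AddMonoidAlgebra.single
        ((t + 1) • one (m * 2 + 1) + ((Finsupp.single (eqv m none) 1 +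
          Finsupp.single (eqv m (some (j, true))) 1) + dS (Finset.univ.erase j)))
        (-(U * (((2 : ℤ) • (xi (eqv m none) * xi (eqv m (some (j, true))))) *
          ((2 : ℤ) ^ (Finset.univ.erase j).card • xp (Finset.univ.erase j))))) := by
      rw [mn, (eqv m).symm_apply_apply]
      simp only []
      rw [map_neg, map_mul, map_mul, hU, Gh_kt, Gh_br, AddMonoidAlgebra.single_mul_single,
        AddMonoidAlgebra.single_mul_single, AddMonoidAlgebra.single_neg]
    rw [Th_eval h1 (by rw [hY, one_eq, dS_erase j]; abel), smul_mul_smul_comm, hcard,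
      mul_smul_comm, neg_mul, smul_mul_assoc, map_neg, map_smul, mul_assoc U,
      top_U hU1 (hmon j _ _), hee' j, map_neg, top_main]
    simp
  rw [Dat.sum_vars (eqv m), h0, Finset.sum_congr rfl fun j _ => by rw [ha j, hb j], Finset.sum_const,
    Finset.card_univ, Fintype.card_fin]
  simp only [nsmul_eq_mul]
  push_cast
  ring

end pairs

end N36.LC
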