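import Pool.Agent.N36.LC.Tr

/-! Invariant sums of words are divisible by `p ^ 2`. -/

set_option autoImplicit false

namespace N36.LC

open Fin.NatCast Fin.CommRing

/-- rotating the factors does not change `top` -/
theorem top_rot {p : ℕ} (hp : Odd p) {n : ℕ} [NeZero n] (F : Fin n → Lam p) :
    top p (List.ofFn fun s => F (s + 1)).prod = top p (List.ofFn F).prod := by
  obtain ⟨m, rfl⟩ : ∃ m, n = m + 1 := Nat.exists_eq_succ_of_ne_zero (NeZero.ne n)
  have h1 : (List.ofFn F).prod = F 0 * (List.ofFn fun i : Fin m => F i.succ).prod := by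
    rw [List.ofFn_succ, List.prod_cons]
  have h2 : (List.ofFn fun s => F (s + 1)).prod =
      (List.ofFn fun i : Fin m => F i.succ).prod * F 0 := by
    rw [List.ofFn_succ', List.concat_eq_append, List.prod_append, List.prod_singleton]
    have h3 : (Fin.last m) + 1 = 0 := Fin.last_add_one m
    rw [h3]
    congr 3
    funext i
    rw [Fin.coeSucc_eq_succ]
  rw [h1, h2]
  exact trace p hp _ _

theorem top_H1_rot {p : ℕ} (hp : Odd p) {n : ℕ} [NeZero n] (w : Fin n → Fin p) (t : Fin n) :
    top p (H1 (fun s => w (s + 1)) t) = top p (H1 w (t + 1)) := by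
  have := top_rot hp (fun s => if s = t + 1 then xi (w s) else 1 + xi (w s))
  unfold H1
  rw [← this]
  congr 3
  funext s
  by_cases h : s = t
  · rw [if_pos h, if_pos (by rw [h])]
  · rw [if_neg h, if_neg (fun h' => h (add_right_cancel h'))]

theorem top_G1_rot {p : ℕ} (hp : Odd p) {n : ℕ} [NeZero n] (w : Fin n → Fin p) :
    top p (G1 (fun s => w (s + 1))) = top p (G1 w) :=
  top_rot hp (fun s => 1 + xi (w s))

/-- the rotation of words -/
def rot {p n : ℕ} [NeZero n] (w : Fin n → Fin p) : Fin n → Fin p := fun t => w (t + 1)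

theorem rot_iter {p n : ℕ} [NeZero n] (k : ℕ) (w : Fin n → Fin p) (t : Fin n) :
    rot^[k] w t = w (t + (k : Fin n)) := by
  induction k generalizing w with
  | zero => simp
  | succ k ih =>
    rw [Function.iterate_succ_apply, ih]
    unfold rot
    rw [Nat.cast_succ, add_assoc]

theorem rot_bij {p n : ℕ} [NeZero n] : Function.Bijective (rot : (Fin n → Fin p) → _) := by
  rw [← Finite.injective_iff_bijective]
  intro w w' h
  funext t
  have := congrFun h (t - 1)
  unfold rot at this
  rwa [sub_add_cancel] at this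

/-- words of period `p` -/
theorem G1_period {p : ℕ} (hp : 0 < p) [NeZero (p * p)] (w : Fin (p * p) → Fin p)
    (h : rot^[p] w = w) :
    ∃ z : Fin p → Fin p, G1 w = G1 z ^ p ∧ ∀ t, ∃ j, w t = z j := by
  have hlt : ∀ (i j : Fin p), (i : ℕ) * p + j < p * p := by
    intro i j
    calc (i : ℕ) * p + j < (i : ℕ) * p + p := by
          have := j.2
          omega
      _ = ((i : ℕ) + 1) * p := by ring
      _ ≤ p * p := Nat.mul_le_mul_right p i.2
  have hper : ∀ t : Fin (p * p), w (t + ((p : ℕ) : Fin (p * p))) = w t := by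
    intro t
    have h0 := congrFun h t
    rw [rot_iter] at h0
    exact h0
  have hz : ∀ (i : ℕ) (hi : i < p) (j : Fin p), w ⟨i * p + j, hlt ⟨i, hi⟩ j⟩ =
      w ⟨j, lt_of_lt_of_le j.2 (Nat.le_mul_self p)⟩ := by
    intro i
    induction i with
    | zero =>
      intro hi j
      congr 1
      ext
      simp
    | succ i ih =>
      intro hi j
      rw [← ih (by omega) j, ← hper ⟨i * p + j, hlt ⟨i, by omega⟩ j⟩]
      congr 1
      ext
      have h1 := hlt ⟨i + 1, hi⟩ j
      have h1' : (i + 1) * p + (j : ℕ) < p * p := h1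
      have h2 : (i + 1) * p + (j : ℕ) = i * p + j + p := by ring
      show (i + 1) * p + (j : ℕ) = _
      rw [Fin.val_add, Fin.val_natCast]
      show (i + 1) * p + (j : ℕ) = (i * p + (j : ℕ) + p % (p * p)) % (p * p)
      have h3 : i * p + (j : ℕ) + p < p * p := by omega
      have h4 : p < p * p := by omega
      rw [Nat.mod_eq_of_lt h4, Nat.mod_eq_of_lt h3, h2]
  refine ⟨fun j => w ⟨j, lt_of_lt_of_le j.2 (Nat.le_mul_self p)⟩, ?_, ?_⟩
  · unfold G1
    rw [List.ofFn_mul]
    rw [List.prod_flatten, List.map_ofFn]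
    have h5 : (List.prod ∘ fun i : Fin p => List.ofFn fun j : Fin p =>
        (1 : Lam p) + xi (w ⟨(i : ℕ) * p + j, hlt i j⟩)) = fun _ : Fin p =>
        (List.ofFn fun j : Fin p =>
          (1 : Lam p) + xi (w ⟨j, lt_of_lt_of_le j.2 (Nat.le_mul_self p)⟩)).prod := by
      funext i
      simp only [Function.comp_apply]
      congr 2
      funext j
      rw [hz i i.2 j]
    rw [h5, List.ofFn_const, List.prod_replicate]
  · intro t
    have h6 : (t : ℕ) / p < p := Nat.div_lt_of_lt_mul t.2
    refine ⟨⟨(t : ℕ) % p, Nat.mod_lt _ hp⟩, ?_⟩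
    show w t = w ⟨(t : ℕ) % p, _⟩
    refine Eq.trans ?_ (hz ((t : ℕ) / p) h6 ⟨(t : ℕ) % p, Nat.mod_lt _ hp⟩)
    congr 1
    ext
    show (t : ℕ) = (t : ℕ) / p * p + (t : ℕ) % p
    exact (Nat.div_add_mod' (t : ℕ) p).symm

theorem kl1 (hE : Euler) (h2 : Tau2) (h3 : Tau3) (hO : OrbitSum) : KL1 := by
  intro p hp hodd n _ hn c hc hcard
  subst hn
  have hc' : ∀ w, c (rot w) = c w := hc
  -- the sum does not depend on the place
  set S : Fin (p * p) → ℤ := fun t => ∑ w, c w * top p (H1 w t) with hS
  have hS1 : ∀ t, S (t + 1) = S t := by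
    intro t
    rw [hS]
    show ∑ w, c w * top p (H1 w (t + 1)) = ∑ w, c w * top p (H1 w t)
    rw [← rot_bij.sum_comp (fun w => c w * top p (H1 w t))]
    refine Finset.sum_congr rfl (fun w _ => ?_)
    rw [hc' w]
    congr 1
    exact (top_H1_rot hodd w t).symm
  have hS2 : ∀ k : ℕ, S ((k : Fin (p * p))) = S 0 := by
    intro k
    induction k with
    | zero => simp
    | succ k ih => rw [Nat.cast_succ, hS1, ih]
  have hS3 : ∀ t, S t = S (-1) := by
    intro t
    have e1 := hS2 (t : ℕ)
    have e2 := hS2 ((-1 : Fin (p * p)) : ℕ)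
    rw [Fin.cast_val_eq_self] at e1 e2
    rw [e1, e2]
  have hsum : ((p : ℤ) * p) * S (-1) = p * ∑ w, c w * top p (G1 w) := by
    have e1 : ∑ t, S t = ((p : ℤ) * p) * S (-1) := by
      rw [Finset.sum_congr rfl (fun t _ => hS3 t), Finset.sum_const, Finset.card_univ,
        Fintype.card_fin, nsmul_eq_mul]
      push_cast
      ring
    rw [← e1, hS, Finset.sum_comm, Finset.mul_sum]
    refine Finset.sum_congr rfl (fun w _ => ?_)
    rw [← Finset.mul_sum, hE p (p * p) w]
    ring
  have hp3 : (p : ℤ) ^ 3 ∣ ∑ w, c w * top p (G1 w) := by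
    refine hO p hp (Fin (p * p) → Fin p) rot ?_ (fun w => c w * top p (G1 w)) ?_ ?_ ?_ ?_
    · intro w
      funext t
      rw [rot_iter, Fin.natCast_self, add_zero]
    · intro w
      show c (rot w) * top p (G1 (rot w)) = c w * top p (G1 w)
      rw [hc' w]
      congr 1
      exact top_G1_rot hodd w
    · intro w
      show (p : ℤ) ∣ c w * top p (G1 w)
      by_cases h0 : c w = 0
      · rw [h0, zero_mul]
        exact dvd_zero _
      · exact Dvd.dvd.mul_left (h2 p (p * p) w hodd (fun i => by rw [hcard w h0 i])) _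
    · intro w hw
      show (p : ℤ) ^ 2 ∣ c w * top p (G1 w)
      by_cases h0 : c w = 0
      · rw [h0, zero_mul]
        exact dvd_zero _
      · obtain ⟨z, hz, hz2⟩ := G1_period hp.pos w hw
        rw [hz]
        refine Dvd.dvd.mul_left (h3 p hp hodd z ?_) _
        rw [← Finite.surjective_iff_bijective]
        intro i
        have h4 := hcard w h0 i
        have h5 : (Finset.univ.filter fun t => w t = i).Nonempty := by
          rw [← Finset.card_pos, h4]
          exact hp.pos
        obtain ⟨t, ht⟩ := h5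
        obtain ⟨j, hj⟩ := hz2 t
        exact ⟨j, by rw [← hj, (Finset.mem_filter.mp ht).2]⟩
    · intro w hw
      show c w * top p (G1 w) = 0
      by_contra hne
      have h0 : c w ≠ 0 := fun h => hne (by rw [h, zero_mul])
      have hconst : ∀ t, w t = w 0 := by
        intro t
        have h6 : rot^[(t : ℕ)] w = w := Function.iterate_fixed hw _
        have h7 := congrFun h6 0
        rw [rot_iter, Fin.cast_val_eq_self, zero_add] at h7
        exact h7
      have h8 := hcard w h0 (w 0)
      have h9 : (Finset.univ.filter fun t => w t = w 0) = Finset.univ := by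
        rw [Finset.filter_eq_self]
        intro t _
        exact hconst t
      rw [h9, Finset.card_univ, Fintype.card_fin] at h8
      have h10 := hp.two_le
      nlinarith
  obtain ⟨s, hs⟩ := hp3
  rw [hs] at hsum
  have hp0 : ((p : ℤ) * p) ≠ 0 := by
    have := hp.pos
    positivity
  refine ⟨s, ?_⟩
  have : ((p : ℤ) * p) * S (-1) = ((p : ℤ) * p) * (p ^ 2 * s) := by
    rw [hsum]
    ring
  exact mul_left_cancel₀ hp0 this

end N36.LC
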