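import Pool.Agent.N36.LC.Stm

/-! Sums over the orbits of a cyclic group of order `p ^ 2`. -/

set_option autoImplicit false

namespace N36.LC

theorem orbitSum : OrbitSum := by
  intro p hp X _ r hr f hf hfp hfp2 hfix
  classical
  have hfk : ∀ k x, f (r^[k] x) = f x := by
    intro k
    induction k with
    | zero => intro x; rfl
    | succ k ih =>
      intro x
      rw [Function.iterate_succ_apply, ih, hf]
  have hper : ∀ x, Function.IsPeriodicPt r (p * p) x := hr
  let s : Setoid X :=
    { r := fun x y => ∃ k, r^[k] x = y
      iseqv :=
        { refl := fun x => ⟨0, rfl⟩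
          symm := by
            rintro x y ⟨k, rfl⟩
            refine ⟨(p * p - 1) * k, ?_⟩
            have h1 : 0 < p * p := Nat.mul_pos hp.pos hp.pos
            have h2 : (p * p - 1) * k + k = p * p * k := by
              obtain ⟨q, hq⟩ : ∃ q, p * p = q + 1 := ⟨p * p - 1, by omega⟩
              rw [hq, Nat.add_sub_cancel]
              ring
            rw [← Function.iterate_add_apply, h2]
            exact (hper x).mul_const k
          trans := by
            rintro x y z ⟨k, rfl⟩ ⟨l, rfl⟩
            exact ⟨l + k, Function.iterate_add_apply r l k x⟩ } }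
  rw [← Finset.sum_fiberwise (s := Finset.univ) (g := fun x => (Quotient.mk s x)) (f := f)]
  refine Finset.dvd_sum (fun q _ => ?_)
  induction q using Quotient.inductionOn with
  | h x =>
    set m := Function.minimalPeriod r x with hm
    have hmp : 0 < m := (hper x).minimalPeriod_pos (Nat.mul_pos hp.pos hp.pos)
    have hset : Finset.univ.filter (fun y => Quotient.mk s y = Quotient.mk s x) =
        (Finset.range m).image (fun k => r^[k] x) := by
      ext y
      rw [Finset.mem_filter, Finset.mem_image]
      constructor
      · rintro ⟨-, h⟩
        obtain ⟨k, hk⟩ : ∃ k, r^[k] x = y := Quotient.exact h.symm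
        refine ⟨k % m, Finset.mem_range.mpr (Nat.mod_lt _ hmp), ?_⟩
        rw [← hk]
        exact Function.iterate_mod_minimalPeriod_eq
      · rintro ⟨k, -, hk⟩
        refine ⟨Finset.mem_univ _, ?_⟩
        exact (Quotient.sound (⟨k, hk⟩ : ∃ k, r^[k] x = y)).symm
    have hinj : Set.InjOn (fun k => r^[k] x) (Finset.range m : Set ℕ) := by
      intro a ha b hb hab
      rw [Finset.coe_range] at ha hb
      exact Function.iterate_injOn_Iio_minimalPeriod ha hb hab
    rw [hset, Finset.sum_image hinj]
    simp only [hfk]
    rw [Finset.sum_const, Finset.card_range, nsmul_eq_mul]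
    have hdvd : m ∣ p ^ 2 := by
      rw [pow_two]
      exact (hper x).minimalPeriod_dvd
    obtain ⟨i, hi, hmi⟩ := (Nat.dvd_prime_pow hp).mp hdvd
    have hcases : i = 0 ∨ i = 1 ∨ i = 2 := by omega
    rcases hcases with rfl | rfl | rfl
    · have h1 : r x = x := by
        have : Function.IsPeriodicPt r m x := Function.isPeriodicPt_minimalPeriod r x
        rw [hmi, pow_zero] at this
        exact this
      rw [hfix x h1]
      simp
    · have h1 : r^[p] x = x := by
        have : Function.IsPeriodicPt r m x := Function.isPeriodicPt_minimalPeriod r x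
        rw [hmi, pow_one] at this
        exact this
      rw [hmi, pow_one, pow_succ']
      exact mul_dvd_mul (dvd_refl _) (hfp2 x h1)
    · rw [hmi]
      push_cast
      rw [pow_succ]
      exact mul_dvd_mul (dvd_refl _) (hfp x)

end N36.LC
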