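import Pool.Agent.N36.LC.Stm

/-! `6 [u [b, [c, d]] v, e]` lies in `L_4` of every ring. -/

set_option autoImplicit false

namespace N36.LC

section L

variable {A : Type} [Ring A]

theorem L_comm_mem (k : ℕ) (a b : A) (hb : b ∈ L A (k + 1)) : a * b - b * a ∈ L A (k + 2) := by
  rw [L]
  exact AddSubgroup.subset_closure ⟨a, b, hb, rfl⟩

theorem L_comm_mem' (k : ℕ) (a b : A) (hb : b ∈ L A (k + 1)) : b * a - a * b ∈ L A (k + 2) := by
  have h := neg_mem (L_comm_mem k a b hb)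
  rwa [neg_sub] at h

theorem L_succ_le (k : ℕ) : L A (k + 2) ≤ L A (k + 1) := by
  induction k with
  | zero =>
    show L A 2 ≤ L A 1
    rw [L]
    exact le_top
  | succ k ih =>
    rw [L, AddSubgroup.closure_le]
    rintro x ⟨a, b, hb, rfl⟩
    exact L_comm_mem k a b (ih hb)

theorem s_mem (c d : A) : ⁅c, d⁆ ∈ L A 2 := by
  rw [Ring.lie_def]
  exact L_comm_mem 0 c d (by rw [L]; trivial)

theorem t_mem (b c d : A) : ⁅b, ⁅c, d⁆⁆ ∈ L A 3 := by
  rw [Ring.lie_def b]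
  exact L_comm_mem 1 b _ (s_mem c d)

/-- `[a [b, [c, d]], e]` -/
def ff (a b e c d : A) : A := ⁅a * ⁅b, ⁅c, d⁆⁆, e⁆

theorem ff1 (a b e c d : A) : ff a b e c d + ff b a e c d ∈ L A 4 := by
  have h1 := L_comm_mem' 2 e _ (L_comm_mem' 1 (a * b) _ (s_mem c d))
  have h2 : ⁅b, ⁅a, ⁅c, d⁆⁆⁆ ∈ L A 4 := by
    rw [Ring.lie_def b]
    exact L_comm_mem 2 b _ (t_mem a c d)
  have h3 := L_succ_le 3 (L_comm_mem' 3 e _ h2)
  have e1 : ff a b e c d + ff b a e c d =
      -((⁅c, d⁆ * (a * b) - a * b * ⁅c, d⁆) * e - e * (⁅c, d⁆ * (a * b) - a * b * ⁅c, d⁆)) +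
      (⁅b, ⁅a, ⁅c, d⁆⁆⁆ * e - e * ⁅b, ⁅a, ⁅c, d⁆⁆⁆) := by
    unfold ff
    generalize ⁅c, d⁆ = s
    simp only [Ring.lie_def]
    noncomm_ring
  rw [e1]
  exact add_mem (neg_mem h1) h3

theorem ff2 (a b e c d : A) : ff a b e c d + ff e b a c d ∈ L A 4 := by
  have ht := t_mem b c d
  have h1 := L_comm_mem 2 (e * a) _ ht
  have h2 : ⁅e, ⁅b, ⁅c, d⁆⁆⁆ ∈ L A 4 := by
    rw [Ring.lie_def e]
    exact L_comm_mem 2 e _ ht
  have h3 := L_succ_le 3 (L_comm_mem' 3 a _ h2)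
  have e1 : ff a b e c d + ff e b a c d =
      -((e * a) * ⁅b, ⁅c, d⁆⁆ - ⁅b, ⁅c, d⁆⁆ * (e * a)) +
      (⁅e, ⁅b, ⁅c, d⁆⁆⁆ * a - a * ⁅e, ⁅b, ⁅c, d⁆⁆⁆) := by
    unfold ff
    generalize ⁅b, ⁅c, d⁆⁆ = t
    simp only [Ring.lie_def]
    noncomm_ring
  rw [e1]
  exact add_mem (neg_mem h1) h3

theorem ff3 (a b e c d : A) : ff a b e c d = -ff a b e d c := by
  unfold ff
  simp only [Ring.lie_def]
  noncomm_ring

theorem ff4 (a b e c d : A) : ff a b e c d + ff a c e d b + ff a d e b c = 0 := by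
  unfold ff
  simp only [Ring.lie_def]
  noncomm_ring

end L

/-- the linear algebra -/
theorem six_alg {A Q : Type} [AddCommGroup Q] (g : A → A → A → A → A → Q)
    (h213 : ∀ a b e c d, g b a e c d = -g a b e c d)
    (h321 : ∀ a b e c d, g e b a c d = -g a b e c d)
    (h54 : ∀ a b e c d, g a b e d c = -g a b e c d)
    (h4 : ∀ a b e c d, g a b e c d + g a c e d b + g a d e b c = 0) (a b e c d : A) :
    (6 : ℕ) • g a b e c d = 0 := by
  have h132 : ∀ a b e c d, g a e b c d = -g a b e c d := by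
    intro a b e c d
    rw [h213 e a b, h321 b a e, h213 a b e, neg_neg]
  have r0 := h4 a e b c d
  rw [h132 a b e c d, h132 a b c d e, h54 a b c e d, h132 a b d e c] at r0
  have r1 := h4 a b e c d
  rw [h132 a e c d b, h54 a e c b d, h132 a e d b c] at r1
  have r2 := h4 a b c e d
  rw [h54 a e c b d, h132 a c d b e] at r2
  have r3 := h4 a b d e c
  rw [h54 a e d b c] at r3
  have r4 := h4 b a e c d
  rw [h213 a b e c d, h132 b e c d a, h54 b e c a d, h132 b e d a c] at r4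
  have r5 := h4 b a c e d
  rw [h213 a b c e d, h54 b e c a d, h132 b c d a e] at r5
  have r6 := h4 b a d e c
  rw [h213 a b d e c, h54 b e d a c] at r6
  have r7 := h4 e a c b d
  rw [h213 a e c b d, h213 b e c d a, h54 b e c a d, h132 e c d a b] at r7
  have r8 := h4 e a d b c
  rw [h213 a e d b c, h213 b e d c a, h54 b e d a c] at r8
  have r9 := h4 c a d b e
  rw [h213 a c d b e, h213 b c d e a, h54 b c d a e, h213 e c d a b] at r9
  linear_combination (norm := module) (-2 : ℤ) • r0 + (2 : ℤ) • r1 + (1 : ℤ) • r2 + (-1 : ℤ) • r3 +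
    (-2 : ℤ) • r4 + (-1 : ℤ) • r5 + (1 : ℤ) • r6 + (1 : ℤ) • r7 + (-1 : ℤ) • r8 + (-2 : ℤ) • r9

theorem six_ff {A : Type} [Ring A] (a b e c d : A) : (6 : ℕ) • ff a b e c d ∈ L A 4 := by
  have key := six_alg (A := A) (Q := A ⧸ L A 4)
    (fun a b e c d => (QuotientAddGroup.mk (ff a b e c d) : A ⧸ L A 4))
    (fun a b e c d => by
      rw [eq_neg_iff_add_eq_zero, ← QuotientAddGroup.mk_add, QuotientAddGroup.eq_zero_iff]
      exact ff1 b a e c d)
    (fun a b e c d => by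
      rw [eq_neg_iff_add_eq_zero, ← QuotientAddGroup.mk_add, QuotientAddGroup.eq_zero_iff]
      exact ff2 e b a c d)
    (fun a b e c d => by
      rw [eq_neg_iff_add_eq_zero, ← QuotientAddGroup.mk_add, ff3 a b e d c, neg_add_cancel]
      rfl)
    (fun a b e c d => by
      rw [← QuotientAddGroup.mk_add, ← QuotientAddGroup.mk_add, ff4]
      rfl) a b e c d
  rwa [← QuotientAddGroup.mk_nsmul, QuotientAddGroup.eq_zero_iff] at key

theorem six : Six := by
  intro A _ u v b c d e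
  have h1 := six_ff (u * v) b e c d
  have h2 := six_ff u v e b ⁅c, d⁆
  have e1 : (6 : ℕ) • (u * ⁅b, ⁅c, d⁆⁆ * v * e - e * (u * ⁅b, ⁅c, d⁆⁆ * v)) =
      (6 : ℕ) • ff (u * v) b e c d - (6 : ℕ) • ff u v e b ⁅c, d⁆ := by
    rw [← nsmul_sub]
    congr 1
    unfold ff
    generalize ⁅b, ⁅c, d⁆⁆ = t
    simp only [Ring.lie_def]
    noncomm_ring
  rw [e1]
  exact sub_mem h1 h2

end N36.LC
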