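import Pool.Agent.N36.LC.Ev
import Pool.Agent.N36.LC.Six
import Pool.Agent.N36.LC.KL1
import Pool.Agent.N36.LC.Orbit
import Pool.Agent.N36.LC.Euler

/-! Assembly: `T` is a torsion element of `B_3` whose order is a multiple of `p`. -/

set_option autoImplicit false

namespace N36.LC

theorem klp : KL := kl (kl1 euler tau2 tau3 orbitSum)

/-- the trace on `Λ[X]` -/
theorem trace_coeff {p : ℕ} (hp : Odd p) (g h : Tt p) (d : Fin p →₀ ℕ) :
    top p ((g * h).coeff d) = top p ((h * g).coeff d) := by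
  induction g using AddMonoidAlgebra.induction_linear with
  | zero => simp
  | add a b ha hb =>
    rw [add_mul, mul_add, AddMonoidAlgebra.coeff_add, AddMonoidAlgebra.coeff_add,
      Finsupp.add_apply, Finsupp.add_apply, map_add, map_add, ha, hb]
  | single i r =>
    induction h using AddMonoidAlgebra.induction_linear with
    | zero => simp
    | add a b ha hb =>
      rw [add_mul, mul_add, AddMonoidAlgebra.coeff_add, AddMonoidAlgebra.coeff_add,
        Finsupp.add_apply, Finsupp.add_apply, map_add, map_add, ha, hb]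
    | single j s =>
      rw [AddMonoidAlgebra.single_mul_single, AddMonoidAlgebra.single_mul_single, add_comm j i,
        AddMonoidAlgebra.coeff_single, AddMonoidAlgebra.coeff_single]
      by_cases hd : i + j = d
      · rw [hd, Finsupp.single_eq_same, Finsupp.single_eq_same]
        exact trace p hp r s
      · rw [Finsupp.single_eq_of_ne (Ne.symm hd), Finsupp.single_eq_of_ne (Ne.symm hd)]

/-- commutators in `Λ[X]` are central -/
theorem central_T {p : ℕ} (g h k : Tt p) : (g * h - h * g) * k = k * (g * h - h * g) := by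
  induction g using AddMonoidAlgebra.induction_linear with
  | zero => simp
  | add a b ha hb =>
    have : (a + b) * h - h * (a + b) = (a * h - h * a) + (b * h - h * b) := by noncomm_ring
    rw [this, add_mul, mul_add, ha, hb]
  | single i r =>
    induction h using AddMonoidAlgebra.induction_linear with
    | zero => simp
    | add a b ha hb =>
      have : ∀ g : Tt p, g * (a + b) - (a + b) * g = (g * a - a * g) + (g * b - b * g) := by
        intro g
        noncomm_ring
      rw [this, add_mul, mul_add, ha, hb]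
    | single j s =>
      induction k using AddMonoidAlgebra.induction_linear with
      | zero => simp
      | add a b ha hb => rw [mul_add, add_mul, ha, hb]
      | single l t =>
        rw [AddMonoidAlgebra.single_mul_single, AddMonoidAlgebra.single_mul_single, add_comm j i,
          ← AddMonoidAlgebra.single_sub, AddMonoidAlgebra.single_mul_single,
          AddMonoidAlgebra.single_mul_single, central p r s t, add_comm]

/-- the elements with a multiple in `L_4` -/
def KK (p : ℕ) : AddSubgroup (A p) where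
  carrier := {t | ∃ n : ℕ, 0 < n ∧ n • t ∈ L (A p) 4}
  zero_mem' := ⟨1, one_pos, by rw [smul_zero]; exact zero_mem _⟩
  add_mem' := by
    rintro a b ⟨n, hn, ha⟩ ⟨k, hk, hb⟩
    refine ⟨n * k, Nat.mul_pos hn hk, ?_⟩
    rw [smul_add]
    refine add_mem ?_ ?_
    · rw [mul_comm, mul_smul]
      exact AddSubgroup.nsmul_mem _ ha _
    · rw [mul_smul]
      exact AddSubgroup.nsmul_mem _ hb _
  neg_mem' := by
    rintro a ⟨n, hn, ha⟩
    refine ⟨n, hn, ?_⟩
    rw [smul_neg]
    exact neg_mem ha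

theorem KK_sat {p n : ℕ} (hn : 0 < n) {t : A p} (h : n • t ∈ KK p) : t ∈ KK p := by
  obtain ⟨k, hk, hk'⟩ := h
  refine ⟨k * n, Nat.mul_pos hk hn, ?_⟩
  rw [mul_smul]
  exact hk'

/-- the ideal `J` -/
def JJ {p : ℕ} (hp : Odd p) : TwoSidedIdeal (A p) :=
  TwoSidedIdeal.mk' {t | (∀ u v a, br (u * t * v) a ∈ KK p) ∧
      ∀ (g : Tt p) (d : Fin p →₀ ℕ), top p ((Gh p t * g).coeff d) = 0}
    (by
      refine ⟨fun u v a => ?_, fun g d => ?_⟩
      · rw [mul_zero, zero_mul, br, zero_mul, mul_zero, sub_zero]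
        exact zero_mem _
      · simp)
    (by
      rintro a b ⟨h1, h2⟩ ⟨h3, h4⟩
      refine ⟨fun u v c => ?_, fun g d => ?_⟩
      · have : br (u * (a + b) * v) c = br (u * a * v) c + br (u * b * v) c := by
          simp only [br]
          noncomm_ring
        rw [this]
        exact add_mem (h1 u v c) (h3 u v c)
      · rw [map_add, add_mul, AddMonoidAlgebra.coeff_add, Finsupp.add_apply, map_add, h2, h4,
          add_zero])
    (by
      rintro a ⟨h1, h2⟩
      refine ⟨fun u v c => ?_, fun g d => ?_⟩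
      · have : br (u * -a * v) c = - br (u * a * v) c := by
          simp only [br]
          noncomm_ring
        rw [this]
        exact neg_mem (h1 u v c)
      · rw [map_neg, neg_mul, AddMonoidAlgebra.coeff_neg, Finsupp.neg_apply, map_neg, h2,
          neg_zero])
    (by
      rintro a b ⟨h1, h2⟩
      refine ⟨fun u v c => ?_, fun g d => ?_⟩
      · have : u * (a * b) * v = (u * a) * b * v := by noncomm_ring
        rw [this]
        exact h1 _ _ _
      · rw [map_mul, mul_assoc, trace_coeff hp, mul_assoc]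
        exact h2 _ _)
    (by
      rintro a b ⟨h1, h2⟩
      refine ⟨fun u v c => ?_, fun g d => ?_⟩
      · have : u * (a * b) * v = u * a * (b * v) := by noncomm_ring
        rw [this]
        exact h1 _ _ _
      · rw [map_mul, mul_assoc]
        exact h2 _ _)

theorem mem_JJ {p : ℕ} (hp : Odd p) (t : A p) : t ∈ JJ hp ↔ (∀ u v a, br (u * t * v) a ∈ KK p) ∧
      ∀ (g : Tt p) (d : Fin p →₀ ℕ), top p ((Gh p t * g).coeff d) = 0 := by
  rw [JJ, TwoSidedIdeal.mem_mk']
  rfl

theorem JJ_sat {p n : ℕ} (hp : Odd p) (hn : 0 < n) {t : A p} (h : n • t ∈ JJ hp) : t ∈ JJ hp := by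
  rw [mem_JJ] at h ⊢
  refine ⟨fun u v a => KK_sat hn ?_, fun g d => ?_⟩
  · have : n • br (u * t * v) a = br (u * (n • t) * v) a := by
      simp only [br, mul_smul_comm, smul_mul_assoc, smul_sub]
    rw [this]
    exact h.1 _ _ _
  · have h2 := h.2 g d
    rw [map_nsmul, smul_mul_assoc, AddMonoidAlgebra.coeff_smul, Finsupp.smul_apply,
      map_nsmul] at h2
    rcases smul_eq_zero.1 h2 with h3 | h3
    · omega
    · exact h3

theorem JJ_triple {p : ℕ} (hp : Odd p) (a b c : A p) : br a (br b c) ∈ JJ hp := by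
  rw [mem_JJ]
  refine ⟨fun u v e => ?_, fun g d => ?_⟩
  · exact ⟨6, by norm_num, six (A p) u v a b c e⟩
  · have h1 : Gh p (br a (br b c)) = 0 := by
      have := central_T (Gh p b) (Gh p c) (Gh p a)
      rw [br, br, map_sub, map_mul, map_mul, map_sub, map_mul, map_mul, this, sub_self]
    rw [h1]
    simp

/-- `[A, J]` -/
def NN {p : ℕ} (hp : Odd p) : AddSubgroup (A p) :=
  AddSubgroup.closure {x | ∃ h a, h ∈ JJ hp ∧ x = br h a}

theorem NN_le_KK {p : ℕ} (hp : Odd p) : NN hp ≤ KK p := by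
  rw [NN, AddSubgroup.closure_le]
  rintro _ ⟨h, a, hh, rfl⟩
  have := ((mem_JJ hp h).1 hh).1 1 1 a
  rwa [one_mul, mul_one] at this

theorem L3_le_JJ {p : ℕ} (hp : Odd p) {x : A p} (hx : x ∈ L (A p) 3) : x ∈ JJ hp := by
  have h3 : L (A p) 3 ≤ (JJ hp).asIdeal.toAddSubgroup := by
    show AddSubgroup.closure _ ≤ _
    rw [AddSubgroup.closure_le]
    rintro _ ⟨a, b, hb, rfl⟩
    show _ ∈ JJ hp
    have h2 : ∀ b ∈ L (A p) 2, ∀ a, a * b - b * a ∈ JJ hp := by
      intro b hb
      refine AddSubgroup.closure_induction (p := fun b _ => ∀ a, a * b - b * a ∈ JJ hp)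
        ?_ ?_ ?_ ?_ hb
      · rintro _ ⟨c, d, _, rfl⟩ a
        exact JJ_triple hp a c d
      · intro a
        rw [mul_zero, zero_mul, sub_zero]
        exact zero_mem _
      · intro x y _ _ hx hy a
        have : a * (x + y) - (x + y) * a = (a * x - x * a) + (a * y - y * a) := by noncomm_ring
        rw [this]
        exact add_mem (hx a) (hy a)
      · intro x _ hx a
        have : a * (-x) - (-x) * a = -(a * x - x * a) := by noncomm_ring
        rw [this]
        exact neg_mem (hx a)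
    exact h2 b hb a
  exact h3 hx

theorem L4_le_NN {p : ℕ} (hp : Odd p) : L (A p) 4 ≤ NN hp := by
  show AddSubgroup.closure _ ≤ _
  rw [AddSubgroup.closure_le]
  rintro _ ⟨a, b, hb, rfl⟩
  have h1 : a * b - b * a = - br b a := by rw [br]; noncomm_ring
  rw [h1]
  exact neg_mem (AddSubgroup.subset_closure ⟨b, a, L3_le_JJ hp hb, rfl⟩)

/-- elements of `[A, J]` are sums of commutators of elements of `J` with the variables -/
theorem NN_form {p : ℕ} (hp : Odd p) {x : A p} (hx : x ∈ NN hp) :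
    ∃ h : Fin p → A p, (∀ k, h k ∈ JJ hp) ∧ x = ∑ k, br (h k) (FreeAlgebra.ι ℤ k) := by
  classical
  have key : ∀ (a h : A p), h ∈ JJ hp →
      ∃ g : Fin p → A p, (∀ k, g k ∈ JJ hp) ∧ br h a = ∑ k, br (g k) (FreeAlgebra.ι ℤ k) := by
    intro a
    induction a using FreeAlgebra.induction with
    | grade0 n =>
      intro h _
      refine ⟨0, fun k => zero_mem _, ?_⟩
      rw [br, Algebra.commutes, sub_self]
      simp [br]
    | grade1 i =>
      intro h hh
      refine ⟨fun k => if k = i then h else 0, fun k => ?_, ?_⟩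
      · dsimp only
        split_ifs
        · exact hh
        · exact zero_mem _
      · rw [Finset.sum_eq_single i]
        · simp
        · intro k _ hk
          simp [hk, br]
        · intro h
          exact absurd (Finset.mem_univ i) h
    | mul a b ha hb =>
      intro h hh
      obtain ⟨g1, h1, h2⟩ := ha (b * h) ((JJ hp).mul_mem_left _ _ hh)
      obtain ⟨g2, h3, h4⟩ := hb (h * a) ((JJ hp).mul_mem_right _ _ hh)
      refine ⟨g1 + g2, fun k => add_mem (h1 k) (h3 k), ?_⟩
      have : br h (a * b) = br (b * h) a + br (h * a) b := by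
        simp only [br]
        noncomm_ring
      rw [this, h2, h4, ← Finset.sum_add_distrib]
      apply Finset.sum_congr rfl
      intro k _
      simp only [br, Pi.add_apply]
      noncomm_ring
    | add a b ha hb =>
      intro h hh
      obtain ⟨g1, h1, h2⟩ := ha h hh
      obtain ⟨g2, h3, h4⟩ := hb h hh
      refine ⟨g1 + g2, fun k => add_mem (h1 k) (h3 k), ?_⟩
      have : br h (a + b) = br h a + br h b := by
        simp only [br]
        noncomm_ring
      rw [this, h2, h4, ← Finset.sum_add_distrib]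
      apply Finset.sum_congr rfl
      intro k _
      simp only [br, Pi.add_apply]
      noncomm_ring
  refine AddSubgroup.closure_induction (p := fun x _ => ∃ h : Fin p → A p,
    (∀ k, h k ∈ JJ hp) ∧ x = ∑ k, br (h k) (FreeAlgebra.ι ℤ k)) ?_ ?_ ?_ ?_ hx
  · rintro _ ⟨h, a, hh, rfl⟩
    exact key a h hh
  · refine ⟨0, fun k => zero_mem _, ?_⟩
    simp [br]
  · rintro x y _ _ ⟨g1, h1, rfl⟩ ⟨g2, h3, rfl⟩
    refine ⟨g1 + g2, fun k => add_mem (h1 k) (h3 k), ?_⟩
    rw [← Finset.sum_add_distrib]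
    apply Finset.sum_congr rfl
    intro k _
    simp only [br, Pi.add_apply]
    noncomm_ring
  · rintro x _ ⟨g1, h1, rfl⟩
    refine ⟨-g1, fun k => neg_mem (h1 k), ?_⟩
    rw [← Finset.sum_neg_distrib]
    apply Finset.sum_congr rfl
    intro k _
    simp only [br, Pi.neg_apply]
    noncomm_ring

/-- the quotient ring -/
def RR {p : ℕ} (hp : Odd p) : Type := (JJ hp).ringCon.Quotient

instance {p : ℕ} (hp : Odd p) : Ring (RR hp) :=
  inferInstanceAs (Ring (JJ hp).ringCon.Quotient)

/-- the quotient map -/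
def piR0 {p : ℕ} (hp : Odd p) : A p →+* RR hp := (JJ hp).ringCon.mk'

/-- the quotient map, as an algebra homomorphism -/
def piR {p : ℕ} (hp : Odd p) : A p →ₐ[ℤ] RR hp := (piR0 hp).toIntAlgHom

theorem piR_eq {p : ℕ} (hp : Odd p) (s s' : A p) : piR hp s = piR hp s' ↔ s - s' ∈ JJ hp := by
  rw [← TwoSidedIdeal.rel_iff]
  exact Quotient.eq''

theorem piR_surj {p : ℕ} (hp : Odd p) : Function.Surjective (piR hp) :=
  (JJ hp).ringCon.mk'_surjective

/-- the group `A / [A, J]` -/
abbrev PP {p : ℕ} (hp : Odd p) : Type := A p ⧸ NN hp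

theorem mk_br_eq {p : ℕ} (hp : Odd p) (s s' g : A p) (h : piR hp s = piR hp s') :
    (QuotientAddGroup.mk' (NN hp)) (br s g) = (QuotientAddGroup.mk' (NN hp)) (br s' g) := by
  rw [piR_eq] at h
  rw [← sub_eq_zero, ← map_sub]
  have : br s g - br s' g = br (s - s') g := by
    simp only [br]
    noncomm_ring
  rw [this, QuotientAddGroup.mk'_apply, QuotientAddGroup.eq_zero_iff]
  exact AddSubgroup.subset_closure ⟨_, _, h, rfl⟩

/-- lifts -/
noncomputable def sv {p : ℕ} (hp : Odd p) (r : RR hp) : A p := Function.surjInv (piR_surj hp) r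

theorem piR_sv {p : ℕ} (hp : Odd p) (r : RR hp) : piR hp (sv hp r) = r :=
  Function.surjInv_eq (piR_surj hp) r

/-- the pairing -/
noncomputable def FF {p : ℕ} (hp : Odd p) : RR hp →+ A p →+ PP hp :=
  AddMonoidHom.mk' (fun r => AddMonoidHom.mk'
    (fun g => QuotientAddGroup.mk' (NN hp) (br (sv hp r) g)) (by
      intro a b
      rw [← map_add]
      congr 1
      simp only [br]
      noncomm_ring)) (by
    intro r s
    refine AddMonoidHom.ext fun g => ?_
    show QuotientAddGroup.mk' (NN hp) _ = QuotientAddGroup.mk' (NN hp) _ +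
      QuotientAddGroup.mk' (NN hp) _
    rw [← map_add, mk_br_eq hp (sv hp (r + s)) (sv hp r + sv hp s) g (by
      rw [map_add, piR_sv, piR_sv, piR_sv])]
    congr 1
    simp only [br]
    noncomm_ring)

theorem FF_pi {p : ℕ} (hp : Odd p) (s g : A p) :
    QuotientAddGroup.mk' (NN hp) (br s g) = FF hp (piR hp s) g :=
  mk_br_eq hp _ _ g (by rw [piR_sv])

theorem RR_cent {p : ℕ} (hp : Odd p) (a b c : RR hp) :
    (a * b - b * a) * c = c * (a * b - b * a) := by
  obtain ⟨a, rfl⟩ := piR_surj hp a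
  obtain ⟨b, rfl⟩ := piR_surj hp b
  obtain ⟨c, rfl⟩ := piR_surj hp c
  rw [← map_mul, ← map_mul, ← map_sub, ← map_mul, ← map_mul, piR_eq]
  have : (a * b - b * a) * c - c * (a * b - b * a) = - br c (br a b) := by
    simp only [br]
    noncomm_ring
  rw [this]
  exact neg_mem (JJ_triple hp c a b)

theorem RR_sq {p : ℕ} (hp : Odd p) (a b c : RR hp) :
    (a * b - b * a) * (a * c - c * a) = 0 := by
  have h2 : (2 : ℕ) • ((a * b - b * a) * (a * c - c * a)) = 0 := by
    -- from `[[b, a * a], c] = 0`-type identities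
    have e1 : ((b * (a * a) - (a * a) * b) * c - c * (b * (a * a) - (a * a) * b)) = 0 :=
      sub_eq_zero.2 (RR_cent hp b (a * a) c)
    have e2 : (b * a - a * b) * a = a * (b * a - a * b) := RR_cent hp b a a
    have e3 : (b * a - a * b) * c = c * (b * a - a * b) := RR_cent hp b a c
    have e4 : (b * a - a * b) * (a * c - c * a) = (a * c - c * a) * (b * a - a * b) :=
      RR_cent hp b a _
    have e5 : b * (a * a) - (a * a) * b = (2 : ℕ) • (a * (b * a - a * b)) := by
      have : b * (a * a) - (a * a) * b = (b * a - a * b) * a + a * (b * a - a * b) := by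
        noncomm_ring
      rw [this, e2]
      noncomm_ring
    have e6 : (a * (b * a - a * b)) * c - c * (a * (b * a - a * b)) =
        (a * c - c * a) * (b * a - a * b) := by
      rw [mul_assoc, e3]
      noncomm_ring
    rw [e5, smul_mul_assoc, mul_smul_comm, ← smul_sub, e6, ← e4] at e1
    have e7 : (a * b - b * a) * (a * c - c * a) = - ((b * a - a * b) * (a * c - c * a)) := by
      noncomm_ring
    rw [e7, smul_neg, e1, neg_zero]
  obtain ⟨x, hx⟩ := piR_surj hp ((a * b - b * a) * (a * c - c * a))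
  rw [← hx] at h2 ⊢
  rw [← map_nsmul, ← map_zero (piR hp), piR_eq, sub_zero] at h2
  rw [← map_zero (piR hp), piR_eq, sub_zero]
  exact JJ_sat hp two_pos h2

/-- the data for the abstract computation -/
noncomputable def DD {p : ℕ} (hp : Odd p) : Dat (Fin p) (RR hp) (PP hp) where
  π := piR hp
  surj := piR_surj hp
  cent := RR_cent hp
  sq := RR_sq hp
  F := FF hp
  hF := by
    intro r u v
    obtain ⟨r, rfl⟩ := piR_surj hp r
    rw [← map_mul, ← map_mul, ← FF_pi, ← FF_pi, ← FF_pi, ← map_add]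
    congr 1
    simp only [br]
    noncomm_ring
  F1 := by
    intro u
    rw [← map_one (piR hp), ← FF_pi, br, one_mul, mul_one, sub_self, map_zero]

theorem Th_JJ {p : ℕ} (hp : Odd p) {h : A p} (hh : h ∈ JJ hp) (i : Fin p) : Th i h = 0 :=
  ((mem_JJ hp h).1 hh).2 _ _

theorem Th_sum_smul {p : ℕ} (c : ℤ) (f : Fin p → A p) :
    ∑ k, Th k (c • f k) = c * ∑ k, Th k (f k) := by
  rw [Finset.mul_sum]
  exact Finset.sum_congr rfl fun k _ => Th_smul k c (f k)

theorem br_mem_L3 {p : ℕ} (a b c : A p) : br (br a b) c ∈ L (A p) 3 := by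
  have h1 : br a b ∈ L (A p) 2 := AddSubgroup.subset_closure ⟨a, b, AddSubgroup.mem_top _, rfl⟩
  have h2 : c * br a b - br a b * c ∈ L (A p) 3 := AddSubgroup.subset_closure ⟨c, _, h1, rfl⟩
  have h3 : br (br a b) c = - (c * br a b - br a b * c) := by
    simp only [br]
    noncomm_ring
  rw [h3]
  exact neg_mem h2

theorem TT_mem {m : ℕ} (t : ℕ) (j₀ : Fin m) : TT (eqv m) t j₀ ∈ L (A (m * 2 + 1)) 3 := by
  have h1 : ∀ j c f g, br (lf (eqv m) j c f) g ∈ L (A (m * 2 + 1)) 3 := fun j c f g =>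
    br_mem_L3 _ _ _
  have hA1 : ∀ t j c, A1 (eqv m) t j c ∈ L (A (m * 2 + 1)) 3 := fun t j c => h1 _ _ _ _
  have hA2 : ∀ t j c, A2 (eqv m) t j c ∈ L (A (m * 2 + 1)) 3 := fun t j c => h1 _ _ _ _
  have hB1 : ∀ t j c, B1 (eqv m) t j c ∈ L (A (m * 2 + 1)) 3 := fun t j c => h1 _ _ _ _
  have hB2 : ∀ t j c, B2 (eqv m) t j c ∈ L (A (m * 2 + 1)) 3 := fun t j c => h1 _ _ _ _
  have hC1 : ∀ t j c, C1 (eqv m) t j c ∈ L (A (m * 2 + 1)) 3 := fun t j c => h1 _ _ _ _
  have hz : ∀ (n : ℤ) (x : A (m * 2 + 1)), x ∈ L (A (m * 2 + 1)) 3 →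
      n • x ∈ L (A (m * 2 + 1)) 3 := fun n x hx => AddSubgroup.zsmul_mem _ hx n
  have hD : ∀ t j c, tD (eqv m) t j c ∈ L (A (m * 2 + 1)) 3 := by
    intro t j c
    exact sub_mem (hz _ _ (hC1 _ _ _)) (hz _ _ (sub_mem (add_mem (sub_mem (hz _ _ (hA1 _ _ _))
      (hA2 _ _ _)) (hz _ _ (hB1 _ _ _))) (hB2 _ _ _)))
  exact add_mem (AddSubgroup.sum_mem _ fun j _ => sub_mem (hD _ _ _) (hD _ _ _))
    (hz _ _ (sub_mem (hz _ _ (hA2 _ _ _)) (hz _ _ (hA1 _ _ _))))

/-- **Main lemma.** -/
theorem exists_T {p : ℕ} (hpp : p.Prime) (hp2 : p ≠ 2) : ∃ T ∈ L (A p) 3,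
    (∃ n : ℕ, 0 < n ∧ n • T ∈ L (A p) 4) ∧ ∀ n : ℕ, n.Coprime p → n • T ∉ L (A p) 4 := by
  have hp : Odd p := hpp.odd_of_ne_two hp2
  obtain ⟨m, hm⟩ := hp
  have hm' : p = m * 2 + 1 := by omega
  subst hm'
  have hp : Odd (m * 2 + 1) := hpp.odd_of_ne_two hp2
  have hm1 : 0 < m := by
    rcases Nat.eq_zero_or_pos m with h | h
    · subst h
      exact absurd hpp (by norm_num)
    · exact h
  obtain ⟨t, ht⟩ : ∃ t, t + 2 = m * 2 + 1 := ⟨m * 2 - 1, by omega⟩
  let j₀ : Fin m := ⟨0, hm1⟩
  set D := DD hp with hD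
  set mk := QuotientAddGroup.mk' (NN hp) with hmkd
  have hmk : ∀ s g, mk (br s g) = D.F (D.π s) g := FF_pi hp
  refine ⟨TT (eqv m) t j₀, TT_mem t j₀, ?_, ?_⟩
  · -- a multiple lies in `L_4`
    have h6 : mk ((m * 2 + 1) • TT (eqv m) t j₀) = 0 :=
      D.mk_TT_mul (eqv m) mk hmk t j₀ (m * 2 + 1) (by omega) ht
    have h7 : (m * 2 + 1) • TT (eqv m) t j₀ ∈ NN hp := by
      rwa [hmkd, QuotientAddGroup.mk'_apply, QuotientAddGroup.eq_zero_iff] at h6
    exact KK_sat (Nat.succ_pos _) (NN_le_KK hp h7)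
  · intro n hn hmem
    have h1 : n • TT (eqv m) t j₀ ∈ NN hp := L4_le_NN hp hmem
    have h2 : mk (n • TT (eqv m) t j₀) = 0 := by
      rw [hmkd, QuotientAddGroup.mk'_apply, QuotientAddGroup.eq_zero_iff]
      exact h1
    set c : ℤ := (n : ℤ) * (2 * ((t : ℤ) + 1)) with hc
    have h3 : mk (c • ∑ k, br (mn (eqv m) t k) (FreeAlgebra.ι ℤ k)) = 0 :=
      D.mk_mn_mul (eqv m) mk hmk t j₀ n (by omega) h2
    rw [hmkd, QuotientAddGroup.mk'_apply, QuotientAddGroup.eq_zero_iff] at h3
    obtain ⟨h, hh, hsum⟩ := NN_form hp h3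
    have h4 := klp (m * 2 + 1) hpp hp (fun k => c • mn (eqv m) t k - h k) (by
      have : ∀ k, ((c • mn (eqv m) t k - h k) * FreeAlgebra.ι ℤ k -
          FreeAlgebra.ι ℤ k * (c • mn (eqv m) t k - h k)) =
          c • br (mn (eqv m) t k) (FreeAlgebra.ι ℤ k) - br (h k) (FreeAlgebra.ι ℤ k) := by
        intro k
        simp only [br]
        rw [sub_mul, mul_sub, smul_mul_assoc, mul_smul_comm, smul_sub]
        abel
      simp only [this]
      rw [Finset.sum_sub_distrib, ← Finset.smul_sum, hsum, sub_self])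
    have h5 : ∀ k, Th k (c • mn (eqv m) t k - h k) = Th k (c • mn (eqv m) t k) := by
      intro k
      have h6 : Th k (- h k) = 0 := Th_JJ hp (neg_mem (hh k)) k
      rw [sub_eq_add_neg, Th_add, h6, add_zero]
    simp only [h5] at h4
    rw [Th_sum_smul, val t ht] at h4
    -- `p ^ 2 ∣ n * (2 * (t + 1)) * (p * 2 ^ m)`
    have hppos : ((m * 2 + 1 : ℕ) : ℤ) ≠ 0 := by
      exact_mod_cast hpp.ne_zero
    have h6 : ((m * 2 + 1 : ℕ) : ℤ) ∣ (n * (2 * (t + 1)) * 2 ^ m : ℕ) := by
      have h7 : ((m * 2 + 1 : ℕ) : ℤ) * ((m * 2 + 1 : ℕ) : ℤ) ∣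
          ((m * 2 + 1 : ℕ) : ℤ) * ((n * (2 * (t + 1)) * 2 ^ m : ℕ) : ℤ) := by
        rw [← sq]
        refine h4.trans (dvd_of_eq ?_)
        rw [hc]
        push_cast
        ring
      exact (mul_dvd_mul_iff_left hppos).1 h7
    have h7 : m * 2 + 1 ∣ n * (2 * (t + 1)) * 2 ^ m := by exact_mod_cast h6
    have c2 : Nat.Coprime (m * 2 + 1) 2 := Nat.coprime_two_right.2 hp
    rcases (Nat.Prime.dvd_mul hpp).1 h7 with h8 | h8
    · rcases (Nat.Prime.dvd_mul hpp).1 h8 with h9 | h9
      · have := Nat.Coprime.eq_one_of_dvd hn.symm h9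
        omega
      · rcases (Nat.Prime.dvd_mul hpp).1 h9 with h10 | h10
        · have := Nat.le_of_dvd two_pos h10
          omega
        · have := Nat.le_of_dvd (by omega) h10
          omega
    · have h9 := hpp.dvd_of_dvd_pow h8
      have := Nat.le_of_dvd two_pos h9
      omega

end N36.LC
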