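import Mathlib

/-!
# Torsion of large prime order in `B_3(A_p(ℤ))`: definitions and statements of the parts
-/

set_option autoImplicit false

namespace N36.LC

/-- The lower central series of the ring `A` with `[a, b] = a b - b a`: additive subgroups,
`L 1 = A`, `L (k + 1) = [A, L k]` (the value at `0` is not used). -/
def L (A : Type) [Ring A] : ℕ → AddSubgroup A
  | 0 => ⊤
  | 1 => ⊤
  | k + 2 => AddSubgroup.closure {x | ∃ a b, b ∈ L A (k + 1) ∧ x = a * b - b * a}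

/-- LC/SIX -/
def Six : Prop := ∀ (A : Type) [Ring A] (u v b c d e : A),
  (6 : ℕ) • (u * ⁅b, ⁅c, d⁆⁆ * v * e - e * (u * ⁅b, ⁅c, d⁆⁆ * v)) ∈ L A 4

/-- The exterior algebra of `ℤ ^ p`. -/
abbrev Lam (p : ℕ) : Type := ExteriorAlgebra ℤ (Fin p → ℤ)

/-- The generators `ξ_i`. -/
noncomputable def xi {p : ℕ} (i : Fin p) : Lam p := ExteriorAlgebra.ι ℤ (Pi.single i 1)

/-- the determinant, as a family of alternating maps -/
noncomputable def detFam (p : ℕ) : ∀ k : ℕ, (Fin p → ℤ) [⋀^Fin k]→ₗ[ℤ] ℤ := fun k =>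
  if h : k = p then (Matrix.detRowAlternating (n := Fin p) (R := ℤ)).domDomCongr
    (finCongr h.symm) else 0

/-- The coefficient of `ξ_0 ξ_1 ⋯ ξ_{p-1}`. -/
noncomputable def top (p : ℕ) : Lam p →ₗ[ℤ] ℤ := ExteriorAlgebra.liftAlternating (detFam p)

/-- `∏ (1 + ξ_{w s})` along the word `w`. -/
noncomputable def G1 {p n : ℕ} (w : Fin n → Fin p) : Lam p :=
  (List.ofFn fun s => 1 + xi (w s)).prod

/-- the same product with `ξ_{w t}` in place of `1 + ξ_{w t}` at the place `t` -/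
noncomputable def H1 {p n : ℕ} (w : Fin n → Fin p) (t : Fin n) : Lam p :=
  (List.ofFn fun s => if s = t then xi (w s) else 1 + xi (w s)).prod

/-- values of `top` on products of elements of degree one (to be used by everybody) -/
def TopProd : Prop :=
  (∀ (p : ℕ) (v : Fin p → Fin p → ℤ),
    top p (List.ofFn fun i => ExteriorAlgebra.ι ℤ (v i)).prod = Matrix.det v) ∧
  ∀ (p k : ℕ) (v : Fin k → Fin p → ℤ), k ≠ p →
    top p (List.ofFn fun i => ExteriorAlgebra.ι ℤ (v i)).prod = 0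

/-- LC/TRACE -/
def Trace : Prop := ∀ (p : ℕ), Odd p → ∀ g h : Lam p, top p (g * h) = top p (h * g)

/-- LC/CENTRAL -/
def Central : Prop := ∀ (p : ℕ) (g h k : Lam p), (g * h - h * g) * k = k * (g * h - h * g)

/-- LC/EULER -/
def Euler : Prop := ∀ (p n : ℕ) (w : Fin n → Fin p),
  ∑ t, top p (H1 w t) = (p : ℤ) * top p (G1 w)

/-- LC/TAU2 -/
def Tau2 : Prop := ∀ (p n : ℕ) (w : Fin n → Fin p), Odd p →
  (∀ i, p ∣ (Finset.univ.filter fun t => w t = i).card) → (p : ℤ) ∣ top p (G1 w)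

/-- LC/TAU3 -/
def Tau3 : Prop := ∀ (p : ℕ), p.Prime → Odd p → ∀ z : Fin p → Fin p, Function.Bijective z →
  (p : ℤ) ^ 2 ∣ top p (G1 z ^ p)

/-- LC/ORBIT -/
def OrbitSum : Prop := ∀ (p : ℕ), p.Prime → ∀ (X : Type) [Fintype X] (r : X → X),
  (∀ x, r^[p * p] x = x) → ∀ f : X → ℤ, (∀ x, f (r x) = f x) → (∀ x, (p : ℤ) ∣ f x) →
  (∀ x, r^[p] x = x → (p : ℤ) ^ 2 ∣ f x) → (∀ x, r x = x → f x = 0) → (p : ℤ) ^ 3 ∣ ∑ x, f x

/-- LC/KL1 -/
def KL1 : Prop := ∀ (p : ℕ), p.Prime → Odd p → ∀ (n : ℕ) [NeZero n], n = p * p →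
  ∀ c : (Fin n → Fin p) → ℤ, (∀ w, c (fun t => w (t + 1)) = c w) →
  (∀ w, c w ≠ 0 → ∀ i, (Finset.univ.filter fun t => w t = i).card = p) →
  (p : ℤ) ^ 2 ∣ ∑ w, c w * top p (H1 w (-1))

/-- The free ring `ℤ⟨x_0, …, x_{p-1}⟩`. -/
abbrev A (p : ℕ) : Type := FreeAlgebra ℤ (Fin p)

/-- The target `Λ[X_0, …, X_{p-1}]`, with central variables `X_i`. -/
abbrev Tt (p : ℕ) : Type := AddMonoidAlgebra (Lam p) (Fin p →₀ ℕ)

/-- The ring homomorphism `x_i ↦ X_i (1 + ξ_i)`. -/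
noncomputable def Gh (p : ℕ) : A p →ₐ[ℤ] Tt p :=
  FreeAlgebra.lift ℤ fun i => AddMonoidAlgebra.single (Finsupp.single i 1) (1 + xi i)

/-- the multidegree `(p, p, …, p)` -/
noncomputable def Yd (p : ℕ) : Fin p →₀ ℕ := Finsupp.equivFunOnFinite.symm fun _ => p

/-- The functional `m ↦ top` of the coefficient of `X^(p,…,p)` in `G(m) X_i ξ_i`. -/
noncomputable def Th {p : ℕ} (i : Fin p) (m : A p) : ℤ :=
  top p ((Gh p m * AddMonoidAlgebra.single (Finsupp.single i 1) (xi i)).coeff (Yd p))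

/-- LC/KL -/
def KL : Prop := ∀ (p : ℕ), p.Prime → Odd p → ∀ m : Fin p → A p,
  ∑ i, (m i * FreeAlgebra.ι ℤ i - FreeAlgebra.ι ℤ i * m i) = 0 → (p : ℤ) ^ 2 ∣ ∑ i, Th i (m i)

end N36.LC
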